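import Pool.Agent.R390.SF.Fal
import Pool.Agent.K4H40.ST.Frob

/-! Places of a number field `F`: Frobenius elements, places over a finite set of primes. -/

set_option autoImplicit false
set_option linter.all false

namespace Pool.Agent.L5helper66.FD

open NumberField Pool.Agent.Y800 Pool.Agent.R390.SF Polynomial

variable (F : SubFld ℚ) [hF : FiniteDimensional ℚ F]

theorem nf : NumberField F := ⟨⟩

omit hF in
/-- two different prime numbers are not both in a proper ideal -/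
theorem eq_of_mem {R : Type*} [CommRing R] {I : Ideal R} (hI : I ≠ ⊤) {p q : ℕ} (hp : p.Prime) (hq : q.Prime)
    (h1 : (p : R) ∈ I) (h2 : (q : R) ∈ I) : p = q := by
  by_contra h
  have hco : IsCoprime (p : ℤ) (q : ℤ) := Nat.isCoprime_iff_coprime.2 ((Nat.coprime_primes hp hq).2 h)
  obtain ⟨a, b, hab⟩ := hco
  apply hI
  rw [Ideal.eq_top_iff_one]
  have h3 : (1 : R) = (a : R) * (p : R) + (b : R) * (q : R) := by
    have := congrArg (fun z : ℤ => (z : R)) hab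
    push_cast at this
    exact this.symm
  rw [h3]
  exact I.add_mem (I.mul_mem_left _ h1) (I.mul_mem_left _ h2)

theorem ne_bot_of_max {𝔭 : Ideal (𝓞 F)} (h : 𝔭.IsMaximal) : 𝔭 ≠ ⊥ := by
  haveI := nf F
  exact Ring.ne_bot_of_isMaximal_of_not_isField h (RingOfIntegers.not_isField F)

theorem exists_prime_in {𝔭 : Ideal (𝓞 F)} (h : 𝔭.IsMaximal) : ∃ p : ℕ, p.Prime ∧ (p : 𝓞 F) ∈ 𝔭 := by
  haveI := nf F
  exact Pool.Agent.Y800.HM.exists_prime_mem F 𝔭 h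

/-- the prime numbers below a finite set of places -/
theorem exists_below (S : Set (Ideal (𝓞 F))) (hS : S.Finite) (ℓ : ℕ) (hℓ : ℓ.Prime) : ∃ S₁ : Finset ℕ,
    (∀ p ∈ S₁, p.Prime) ∧ ∀ p : ℕ, p.Prime → p ∉ S₁ → ∀ 𝔭 : Ideal (𝓞 F), 𝔭.IsMaximal → (p : 𝓞 F) ∈ 𝔭 →
      𝔭 ∉ S ∧ (ℓ : 𝓞 F) ∉ 𝔭 := by
  classical
  let f : Ideal (𝓞 F) → ℕ := fun 𝔭 => if h : 𝔭.IsMaximal then (exists_prime_in F h).choose else 2
  have hf : ∀ 𝔭, (f 𝔭).Prime := by
    intro 𝔭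
    by_cases h : 𝔭.IsMaximal
    · simp only [f, h, dif_pos]
      exact (exists_prime_in F h).choose_spec.1
    · simp only [f, h, dif_neg, not_false_iff]
      exact Nat.prime_two
  refine ⟨insert ℓ (hS.toFinset.image f), ?_, ?_⟩
  · intro p hp
    rcases Finset.mem_insert.1 hp with h | h
    · rw [h]; exact hℓ
    · obtain ⟨𝔭, _, rfl⟩ := Finset.mem_image.1 h
      exact hf 𝔭
  · intro p hp hpS 𝔭 h𝔭 hp𝔭
    rw [Finset.mem_insert, not_or] at hpS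
    refine ⟨fun h => hpS.2 ?_, fun h => hpS.1 (eq_of_mem h𝔭.ne_top hp hℓ hp𝔭 h)⟩
    refine Finset.mem_image.2 ⟨𝔭, hS.mem_toFinset.2 h, ?_⟩
    have h1 : ((f 𝔭 : ℕ) : 𝓞 F) ∈ 𝔭 := by
      simp only [f, h𝔭, dif_pos]
      exact (exists_prime_in F h𝔭).choose_spec.2
    exact eq_of_mem h𝔭.ne_top (hf 𝔭) hp h1 hp𝔭

/-- Frobenius elements of the Galois group of `F` -/
theorem exists_frob_place {𝔭 : Ideal (𝓞 F)} (h𝔭 : 𝔭.IsMaximal) : ∃ P : Ideal ZBar, P.IsMaximal ∧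
    P.under (𝓞 F) = 𝔭 ∧ ∃ σ : F.fixingSubgroup, IsGeomFrob (Nat.card (𝓞 F ⧸ 𝔭)) P σ := by
  haveI := nf F
  haveI hint : Algebra.IsIntegral (𝓞 F) ZBar := ⟨fun x =>
    (RingOfIntegers.isIntegral x).tower_top⟩
  obtain ⟨Q, hQ, hQ'⟩ := Ideal.exists_ideal_over_maximal_of_isIntegral (S := ZBar) 𝔭 (by
    have h1 : Function.Injective (algebraMap (𝓞 F) ZBar) := by
      intro a b hab
      apply RingOfIntegers.ext
      apply Subtype.ext
      exact congrArg (fun z : ZBar => (z : AlgebraicClosure ℚ)) hab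
    rw [(RingHom.injective_iff_ker_eq_bot _).1 h1]
    exact bot_le)
  let w : IsDedekindDomain.HeightOneSpectrum (𝓞 F) := ⟨𝔭, h𝔭.isPrime, ne_bot_of_max F h𝔭⟩
  haveI : IsAlgClosure F (AlgebraicClosure ℚ) := ⟨inferInstance, inferInstance⟩
  obtain ⟨σ, hσ⟩ := Pool.Agent.K4H40.ST.Frob.task_frob (F := F) (Ω := AlgebraicClosure ℚ) w Q hQ'
  refine ⟨Q, hQ, hQ', ((IntermediateField.fixingSubgroupEquiv F).symm σ)⁻¹, ?_⟩
  have h1 : Ideal.absNorm w.asIdeal = Nat.card (𝓞 F ⧸ 𝔭) := by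
    rw [Ideal.absNorm_apply, Submodule.cardQuot_apply]
  refine geom_of_arith (σ := ((IntermediateField.fixingSubgroupEquiv F).symm σ : F.fixingSubgroup)) ?_
  intro x
  rw [← h1]
  exact hσ x

end Pool.Agent.L5helper66.FD
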