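import Pool.Agent.L5helper66.FD.Fin
import Pool.Agent.L5helper66.FD.Pl

/-! Two representations whose Frobenius polynomials have coefficients in a fixed finite extension of
`ℚ_ℓ` and agree at a suitable finite set of places have the same Frobenius polynomials. -/

set_option autoImplicit false
set_option linter.all false

namespace Pool.Agent.L5helper66.FD

open NumberField Pool.Agent.Y800 Pool.Agent.R390.SF Polynomial IntermediateField Module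

/-- the place `𝔭` is not in `S` and not above `ℓ` -/
def Away {F : SubFld ℚ} (S : Set (Ideal (𝓞 F))) (ℓ : ℕ) (𝔭 : Ideal (𝓞 F)) : Prop :=
  𝔭.IsMaximal ∧ 𝔭 ∉ S ∧ (ℓ : 𝓞 F) ∉ 𝔭

/-- `r` is continuous and unramified at the places outside `S` which are not above `ℓ`, and the
characteristic polynomials of the Frobenius elements are given by `Q` -/
def Attached {F : SubFld ℚ} (S : Set (Ideal (𝓞 F))) (ℓ : ℕ) {k : Type} [Field k] [TopologicalSpace k]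
    {n : ℕ} (r : F.fixingSubgroup →* GL (Fin n) k) (Q : Ideal (𝓞 F) → k[X]) : Prop :=
  Continuous r ∧ ∀ 𝔭 : Ideal (𝓞 F), Away S ℓ 𝔭 → ∀ P : Ideal ZBar, P.IsMaximal → P.under (𝓞 F) = 𝔭 →
    (∀ τ : F.fixingSubgroup, InInertia P τ → r τ = 1) ∧
    ∀ σ : F.fixingSubgroup, IsGeomFrob (Nat.card (𝓞 F ⧸ 𝔭)) P σ →
      (r σ : Matrix (Fin n) (Fin n) k).charpoly = Q 𝔭

theorem trace_of_charpoly {k : Type} [Field k] {n : ℕ} {A B : Matrix (Fin n) (Fin n) k}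
    (h : A.charpoly = B.charpoly) : A.trace = B.trace := by
  rcases Nat.eq_zero_or_pos n with h0 | h0
  · subst h0
    simp [Matrix.trace]
  · haveI : Nonempty (Fin n) := ⟨⟨0, h0⟩⟩
    rw [Matrix.trace_eq_neg_charpoly_coeff, Matrix.trace_eq_neg_charpoly_coeff, h]

theorem trace_mem {ℓ : ℕ} [Fact ℓ.Prime] {n : ℕ} (K : IntermediateField ℚ_[ℓ] (PadicAlgCl ℓ))
    (A : Matrix (Fin n) (Fin n) (PadicAlgCl ℓ)) (h : ∀ i, A.charpoly.coeff i ∈ K) : A.trace ∈ K := by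
  rcases Nat.eq_zero_or_pos n with h0 | h0
  · subst h0
    simp [Matrix.trace]
  · haveI : Nonempty (Fin n) := ⟨⟨0, h0⟩⟩
    rw [Matrix.trace_eq_neg_charpoly_coeff]
    exact neg_mem (h _)

variable {F : SubFld ℚ} [hF : FiniteDimensional ℚ F]

/-- degree one Frobenius elements -/
theorem weak_frob {S : Set (Ideal (𝓞 F))} {ℓ : ℕ} {k : Type} [Field k] [TopologicalSpace k]
    {n : ℕ} {r : F.fixingSubgroup →* GL (Fin n) k} {Q : Ideal (𝓞 F) → k[X]} (h : Attached S ℓ r Q)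
    {S₁ : Finset ℕ} (hS₁ : ∀ p : ℕ, p.Prime → p ∉ S₁ → ∀ 𝔭 : Ideal (𝓞 F), 𝔭.IsMaximal → (p : 𝓞 F) ∈ 𝔭 →
      𝔭 ∉ S ∧ (ℓ : 𝓞 F) ∉ 𝔭) {p : ℕ} (hp : p.Prime) (hpS : p ∉ S₁) {P : Ideal ZBar} (hP : P.IsMaximal)
    (hpP : (p : ZBar) ∈ P) {σ : F.fixingSubgroup} (hσ : IsGeomFrob p P σ) :
    Away S ℓ (P.under (𝓞 F)) ∧ (r σ : Matrix (Fin n) (Fin n) k).charpoly = Q (P.under (𝓞 F)) := by
  have hm : (P.under (𝓞 F)).IsMaximal := under_max hP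
  have hpm : (p : 𝓞 F) ∈ P.under (𝓞 F) := by
    rw [mem_under, map_natCast]
    exact hpP
  have hok : Away S ℓ (P.under (𝓞 F)) := ⟨hm, hS₁ p hp hpS _ hm hpm⟩
  refine ⟨hok, (h.2 _ hok P hP rfl).2 σ ?_⟩
  have h5 : Nat.card (𝓞 F ⧸ P.under (𝓞 F)) = p := resCard_one hp hP hpP σ.2 hσ
  rw [h5]
  exact hσ

theorem weak_inertia {S : Set (Ideal (𝓞 F))} {ℓ : ℕ} {k : Type} [Field k] [TopologicalSpace k]
    {n : ℕ} {r : F.fixingSubgroup →* GL (Fin n) k} {Q : Ideal (𝓞 F) → k[X]} (h : Attached S ℓ r Q)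
    {S₁ : Finset ℕ} (hS₁ : ∀ p : ℕ, p.Prime → p ∉ S₁ → ∀ 𝔭 : Ideal (𝓞 F), 𝔭.IsMaximal → (p : 𝓞 F) ∈ 𝔭 →
      𝔭 ∉ S ∧ (ℓ : 𝓞 F) ∉ 𝔭) {p : ℕ} (hp : p.Prime) (hpS : p ∉ S₁) {P : Ideal ZBar} (hP : P.IsMaximal)
    (hpP : (p : ZBar) ∈ P) {τ : F.fixingSubgroup} (hτ : InInertia P τ) : r τ = 1 := by
  have hm : (P.under (𝓞 F)).IsMaximal := under_max hP
  have hpm : (p : 𝓞 F) ∈ P.under (𝓞 F) := by
    rw [mem_under, map_natCast]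
    exact hpP
  exact (h.2 _ ⟨hm, hS₁ p hp hpS _ hm hpm⟩ P hP rfl).1 τ hτ

theorem continuous_trace {k : Type} [Field k] [TopologicalSpace k] [IsTopologicalRing k] {n : ℕ}
    {G : Type*} [Group G] [TopologicalSpace G] {r : G →* GL (Fin n) k} (hr : Continuous r) :
    Continuous fun g => (r g : Matrix (Fin n) (Fin n) k).trace :=
  (Units.continuous_val.comp hr).matrix_trace

/-- traces of all elements -/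
theorem trace_all {S : Set (Ideal (𝓞 F))} {ℓ : ℕ} [Fact ℓ.Prime] {n : ℕ}
    {r : F.fixingSubgroup →* GL (Fin n) (PadicAlgCl ℓ)} {Q : Ideal (𝓞 F) → (PadicAlgCl ℓ)[X]}
    (h : Attached S ℓ r Q) {S₁ : Finset ℕ} (hS₁ : ∀ p : ℕ, p.Prime → p ∉ S₁ → ∀ 𝔭 : Ideal (𝓞 F),
      𝔭.IsMaximal → (p : 𝓞 F) ∈ 𝔭 → 𝔭 ∉ S ∧ (ℓ : 𝓞 F) ∉ 𝔭) (y : PadicAlgCl ℓ)
    (hy : ∀ 𝔭, Away S ℓ 𝔭 → ∀ i, (Q 𝔭).coeff i ∈ ℚ_[ℓ]⟮y⟯) (g : F.fixingSubgroup) :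
    (r g : Matrix (Fin n) (Fin n) (PadicAlgCl ℓ)).trace ∈ ℚ_[ℓ]⟮y⟯ := by
  have hcl : IsClosed {g : F.fixingSubgroup |
      (r g : Matrix (Fin n) (Fin n) (PadicAlgCl ℓ)).trace ∈ ℚ_[ℓ]⟮y⟯} :=
    IsClosed.preimage (continuous_trace h.1) (closed_simple ℓ y)
  refine closed_univ' (F := F) _ hcl S₁ ?_ g
  intro p hp hpS P hP hpP σ hσ
  obtain ⟨h1, h2⟩ := weak_frob h hS₁ hp hpS hP hpP hσ
  refine trace_mem (ℓ := ℓ) ℚ_[ℓ]⟮y⟯ (r σ : Matrix (Fin n) (Fin n) (PadicAlgCl ℓ)) fun i => ?_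
  rw [h2]
  exact hy _ h1 i

/-- **comparison** -/
theorem compare (S : Set (Ideal (𝓞 F))) (hS : S.Finite) (ℓ : ℕ) [Fact ℓ.Prime] (n : ℕ)
    (y : PadicAlgCl ℓ) : ∃ 𝒬 : Finset (Ideal (𝓞 F)), (∀ 𝔭 ∈ 𝒬, Away S ℓ 𝔭) ∧
      ∀ (r r' : F.fixingSubgroup →* GL (Fin n) (PadicAlgCl ℓ)) (Q Q' : Ideal (𝓞 F) → (PadicAlgCl ℓ)[X]),
        Attached S ℓ r Q → Attached S ℓ r' Q' → (∀ 𝔭, Away S ℓ 𝔭 → ∀ i, (Q 𝔭).coeff i ∈ ℚ_[ℓ]⟮y⟯) →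
        (∀ 𝔭, Away S ℓ 𝔭 → ∀ i, (Q' 𝔭).coeff i ∈ ℚ_[ℓ]⟮y⟯) → (∀ 𝔭 ∈ 𝒬, Q 𝔭 = Q' 𝔭) →
        ∀ 𝔭, Away S ℓ 𝔭 → Q 𝔭 = Q' 𝔭 := by
  classical
  obtain ⟨S₁, hS₁p, hS₁⟩ := exists_below F S hS ℓ (Fact.out : ℓ.Prime)
  let A : Type := Matrix (Fin n) (Fin n) (PadicAlgCl ℓ) × Matrix (Fin n) (Fin n) (PadicAlgCl ℓ)
  let E : Submodule ℚ_[ℓ] (PadicAlgCl ℓ) := ℚ_[ℓ]⟮y⟯.toSubalgebra.toSubmodule
  haveI hE : FiniteDimensional ℚ_[ℓ] E := fd_simple ℓ y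
  set D : ℕ := (ℓ ^ (2 * finrank (PadicAlgCl ℓ) (Matrix (Fin n) (Fin n) (PadicAlgCl ℓ) ×
    Matrix (Fin n) (Fin n) (PadicAlgCl ℓ)) * finrank ℚ_[ℓ] E)) ^ (ℓ ^ (2 * finrank (PadicAlgCl ℓ)
      (Matrix (Fin n) (Fin n) (PadicAlgCl ℓ) × Matrix (Fin n) (Fin n) (PadicAlgCl ℓ)) *
        finrank ℚ_[ℓ] E)) with hD
  obtain ⟨𝒯, h𝒯, hset⟩ := exists_prime_set' (F := F) S₁ S₁ hS₁p D
  obtain ⟨𝒬, h𝒬, h𝒬'⟩ := exists_places (F := F) 𝒯 fun p hp => (h𝒯 p hp).1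
  refine ⟨𝒬, ?_, ?_⟩
  · intro 𝔭 h𝔭
    obtain ⟨h1, p, hp, hp𝔭⟩ := h𝒬 𝔭 h𝔭
    exact ⟨h1, hS₁ p (h𝒯 p hp).1 (h𝒯 p hp).2 𝔭 h1 hp𝔭⟩
  intro r r' Q Q' hr hr' hQ hQ' heq
  let R : F.fixingSubgroup →* (Matrix (Fin n) (Fin n) (PadicAlgCl ℓ) ×
      Matrix (Fin n) (Fin n) (PadicAlgCl ℓ)) :=
    ((Units.coeHom _).comp r).prod ((Units.coeHom _).comp r')
  let τ₁ : (Matrix (Fin n) (Fin n) (PadicAlgCl ℓ) × Matrix (Fin n) (Fin n) (PadicAlgCl ℓ))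
      →ₗ[PadicAlgCl ℓ] PadicAlgCl ℓ :=
    (Matrix.traceLinearMap (Fin n) (PadicAlgCl ℓ) (PadicAlgCl ℓ)).comp (LinearMap.fst _ _ _)
  let τ₂ : (Matrix (Fin n) (Fin n) (PadicAlgCl ℓ) × Matrix (Fin n) (Fin n) (PadicAlgCl ℓ))
      →ₗ[PadicAlgCl ℓ] PadicAlgCl ℓ :=
    (Matrix.traceLinearMap (Fin n) (PadicAlgCl ℓ) (PadicAlgCl ℓ)).comp (LinearMap.snd _ _ _)
  have e₁ : ∀ g, τ₁ (R g) = (r g : Matrix (Fin n) (Fin n) (PadicAlgCl ℓ)).trace := fun g => rfl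
  have e₂ : ∀ g, τ₂ (R g) = (r' g : Matrix (Fin n) (Fin n) (PadicAlgCl ℓ)).trace := fun g => rfl
  obtain ⟨H, hHn, hHo, hHi, hHk, hHZ⟩ := falt_core (ℓ := ℓ) R τ₁ τ₂
    (fun x y => Matrix.trace_mul_comm x.1 y.1) (fun x y => Matrix.trace_mul_comm x.2 y.2)
    (by simp only [e₁]; exact continuous_trace hr.1) (by simp only [e₂]; exact continuous_trace hr'.1)
    E (fun g => by rw [e₁]; exact trace_all hr hS₁ y hQ g)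
    (fun g => by rw [e₂]; exact trace_all hr' hS₁ y hQ' g)
  have hcos := hset H hHo hHi (by
    intro p hp hpS P hP hpP τ hτ
    apply hHk
    have h1 := weak_inertia hr hS₁ hp hpS hP hpP hτ
    have h2 := weak_inertia hr' hS₁ hp hpS hP hpP hτ
    show ((r τ : Matrix (Fin n) (Fin n) (PadicAlgCl ℓ)), (r' τ : Matrix (Fin n) (Fin n) (PadicAlgCl ℓ))) = 1
    rw [h1, h2]
    rfl)
  have htr := hHZ {σ | ∃ p ∈ 𝒯, ∃ P : Ideal ZBar, P.IsMaximal ∧ (p : ZBar) ∈ P ∧ IsGeomFrob p P σ}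
    (fun g => by
      obtain ⟨p, hp, P, hP, hpP, σ, hσ, h1⟩ := hcos g
      exact ⟨σ, ⟨p, hp, P, hP, hpP, hσ⟩, h1⟩)
    (fun σ hσ => by
      obtain ⟨p, hp, P, hP, hpP, hσ⟩ := hσ
      rw [e₁, e₂]
      apply trace_of_charpoly
      obtain ⟨h1, h2⟩ := weak_frob hr hS₁ (h𝒯 p hp).1 (h𝒯 p hp).2 hP hpP hσ
      obtain ⟨h3, h4⟩ := weak_frob hr' hS₁ (h𝒯 p hp).1 (h𝒯 p hp).2 hP hpP hσ
      rw [h2, h4]
      exact heq _ (h𝒬' p hp P hP hpP))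
  intro 𝔭 h𝔭
  obtain ⟨P, hP, hP𝔭, σ, hσ⟩ := exists_frob_place F h𝔭.1
  have h1 := (hr.2 𝔭 h𝔭 P hP hP𝔭).2 σ hσ
  have h2 := (hr'.2 𝔭 h𝔭 P hP hP𝔭).2 σ hσ
  rw [← h1, ← h2]
  exact charpoly_of_traces r r' htr σ

end Pool.Agent.L5helper66.FD
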