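import Pool.Agent.L5helper66.FD.Iso
import Pool.Agent.L5helper66.FD.Cmp

/-! The field of definition of the Frobenius polynomials is a number field. -/

set_option autoImplicit false
set_option linter.all false

attribute [local instance 10] DivisionRing.toRatAlgebra

namespace Pool.Agent.L5helper66.FD

open NumberField Pool.Agent.Y800 Pool.Agent.R390.SF Polynomial IntermediateField Module Topology

abbrev QB : Type := AlgebraicClosure ℚ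

theorem countable_QB : Countable QB := by
  have hal : Algebra.IsAlgebraic ℚ (AlgebraicClosure ℚ) := AlgebraicClosure.isAlgebraic ℚ
  have h := Algebra.IsAlgebraic.cardinalMk_le_max ℚ (AlgebraicClosure ℚ)
  have h2 : Cardinal.mk (AlgebraicClosure ℚ) ≤ Cardinal.aleph0 := by
    refine h.trans ?_
    rw [max_le_iff]
    exact ⟨Cardinal.mk_le_aleph0, le_rfl⟩
  exact Cardinal.mk_le_aleph0_iff.1 h2

/-- an algebraic number comes from the algebraic closure of `ℚ` -/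
theorem exists_pre {K : Type} [Field K] [CharZero K] (i₀ : QB →+* K) {x : K} (hx : IsAlgebraic ℚ x) :
    ∃ b : QB, i₀ b = x := by
  letI := i₀.toAlgebra
  have h0 : IsIntegral QB x := by
    obtain ⟨f, hf0, hf⟩ := hx
    have h1 : IsAlgebraic QB x := by
      refine ⟨f.map (algebraMap ℚ QB), ?_, ?_⟩
      · exact (Polynomial.map_ne_zero_iff (algebraMap ℚ QB).injective).2 hf0
      · rw [aeval_def, Polynomial.eval₂_map]
        have h2 : (algebraMap QB K).comp (algebraMap ℚ QB) = algebraMap ℚ K := Subsingleton.elim _ _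
        rw [h2]
        exact hf
    exact h1.isIntegral
  have h1 : (minpoly QB x).degree = 1 :=
    IsAlgClosed.degree_eq_one_of_irreducible QB (minpoly.irreducible h0)
  obtain ⟨b, hb⟩ := minpoly.mem_range_of_degree_eq_one QB x h1
  exact ⟨b, hb⟩

/-- conditions on the image of an algebraic number are closed -/
theorem closed_cond (b : QB) (p : QB → Prop) : IsClosed {σ : GQ | p (σ b)} := by
  rw [← isOpen_compl_iff, isOpen_iff_mem_nhds]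
  intro σ hσ
  have h1 : IsOpen ((MulAction.stabilizer GQ b : Subgroup GQ) : Set GQ) :=
    stabilizer_isOpen_of_isIntegral (K := ℚ) b
  have h2 : (fun τ : GQ => σ⁻¹ * τ) ⁻¹' (MulAction.stabilizer GQ b : Set GQ) ∈ 𝓝 σ := by
    refine (continuous_const_mul σ⁻¹).continuousAt.preimage_mem_nhds ?_
    rw [inv_mul_cancel]
    exact h1.mem_nhds (one_mem (MulAction.stabilizer GQ b))
  refine Filter.mem_of_superset h2 ?_
  intro τ hτ
  have h3 : (σ⁻¹ * τ) b = b := MulAction.mem_stabilizer_iff.1 hτ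
  have h4 : τ b = σ b := by
    have h5 := congrArg σ h3
    rw [AlgEquiv.mul_apply] at h5
    have h6 : σ (σ⁻¹ (τ b)) = τ b := by
      rw [← AlgEquiv.mul_apply, mul_inv_cancel, AlgEquiv.one_apply]
    rwa [h6] at h5
  intro hp
  apply hσ
  show p (σ b)
  rw [← h4]
  exact hp

variable {F : SubFld ℚ} [hF : FiniteDimensional ℚ F]

/-- the subfield of the algebraic closure which corresponds to `K₀` -/
noncomputable def pre (i₀ : QB →ₐ[ℚ] ℂ) (K₀ : IntermediateField ℚ ℂ) : IntermediateField ℚ QB := K₀.comap i₀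

/-- the embedding of `pre i₀ K₀` in `K₀` -/
noncomputable def preHom (i₀ : QB →ₐ[ℚ] ℂ) (K₀ : IntermediateField ℚ ℂ) : pre i₀ K₀ →ₐ[ℚ] K₀ where
  toFun x := ⟨i₀ x, x.2⟩
  map_one' := Subtype.ext (map_one i₀)
  map_mul' x y := Subtype.ext (map_mul i₀ (x : QB) y)
  map_zero' := Subtype.ext (map_zero i₀)
  map_add' x y := Subtype.ext (map_add i₀ (x : QB) y)
  commutes' x := Subtype.ext (i₀.commutes x)

theorem pre_fd (i₀ : QB →ₐ[ℚ] ℂ) (K₀ : IntermediateField ℚ ℂ) [FiniteDimensional ℚ K₀] :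
    FiniteDimensional ℚ (pre i₀ K₀) :=
  FiniteDimensional.of_injective (preHom i₀ K₀).toLinearMap (preHom i₀ K₀).toRingHom.injective

/-- an extension of the embedding of `K₀` -/
theorem exists_ext {ℓ : ℕ} [Fact ℓ.Prime] (i₀ : QB →ₐ[ℚ] ℂ) (K₀ : IntermediateField ℚ ℂ)
    (j : K₀ →+* PadicAlgCl ℓ) : ∃ j₀ : QB →+* PadicAlgCl ℓ, ∀ x : pre i₀ K₀, j₀ x = j (preHom i₀ K₀ x) := by
  letI := (j.comp (preHom i₀ K₀ : pre i₀ K₀ →+* K₀)).toAlgebra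
  let J : QB →ₐ[pre i₀ K₀] PadicAlgCl ℓ := IsAlgClosed.lift
  exact ⟨J, fun x => J.commutes x⟩

/-- **The number field.** -/
theorem core (S : Set (Ideal (𝓞 F))) (hS : S.Finite) (ℓ : ℕ) [Fact ℓ.Prime] (n : ℕ)
    (P : Ideal (𝓞 F) → ℂ[X]) (K₀ : IntermediateField ℚ ℂ) [hK₀ : FiniteDimensional ℚ K₀]
    (j : K₀ →+* PadicAlgCl ℓ)
    (h : ∀ ι : ℂ ≃+* PadicAlgCl ℓ, (∀ x : K₀, ι x = j x) →
      ∃ r : F.fixingSubgroup →* GL (Fin n) (PadicAlgCl ℓ),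
        Attached S ℓ r (fun 𝔭 => (P 𝔭).map (ι : ℂ →+* PadicAlgCl ℓ))) :
    ∃ E : IntermediateField ℚ ℂ, FiniteDimensional ℚ E ∧ ∀ 𝔭, Away S ℓ 𝔭 → ∀ i, (P 𝔭).coeff i ∈ E := by
  classical
  haveI := countable_QB
  let i₀ : QB →ₐ[ℚ] ℂ := IsAlgClosed.lift
  obtain ⟨j₀, hj₀K⟩ := exists_ext i₀ K₀ j
  haveI := pre_fd i₀ K₀
  set Γ : Subgroup GQ := (pre i₀ K₀).fixingSubgroup with hΓ
  haveI : CompactSpace Γ := compact_F (pre i₀ K₀)
  have hΓo : IsOpen (Γ : Set GQ) := isOpen_F (pre i₀ K₀)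
  have hj₀ : Function.Injective j₀ := j₀.injective
  -- the coefficients are algebraic
  have halg : ∀ 𝔭, Away S ℓ 𝔭 → ∀ i, IsAlgebraic ℚ ((P 𝔭).coeff i) := by
    intro 𝔭 h𝔭 i
    by_contra hcon
    obtain ⟨e, hej, he⟩ := exists_large ℓ (K := K₀) (algebraMap K₀ ℂ) j hcon
    obtain ⟨r, hr⟩ := h e hej
    obtain ⟨P', hP', hP𝔭, σ, hσ⟩ := exists_frob_place F h𝔭.1
    have h1 := (hr.2 𝔭 h𝔭 P' hP' hP𝔭).2 σ hσ
    have h2 := charpoly_bd r hr.1 σ i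
    rw [h1, coeff_map] at h2
    exact absurd h2 (not_le.2 he)
  have hb : ∀ 𝔭 : Ideal (𝓞 F), ∀ i : ℕ, ∃ b : QB, Away S ℓ 𝔭 → i₀ b = (P 𝔭).coeff i := by
    intro 𝔭 i
    by_cases h𝔭 : Away S ℓ 𝔭
    · obtain ⟨b, hb⟩ := exists_pre (i₀ : QB →+* ℂ) (halg 𝔭 h𝔭 i)
      exact ⟨b, fun _ => hb⟩
    · exact ⟨0, fun h1 => absurd h1 h𝔭⟩
  choose b hb using hb
  -- the isomorphisms and the representations
  have hι : ∀ σ : Γ, ∃ e : ℂ ≃+* PadicAlgCl ℓ, ∀ x : QB, e (i₀ x) = j₀ ((σ : GQ) x) := by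
    intro σ
    obtain ⟨e, he⟩ := exists_iso_padic ℓ (i₀ : QB →+* ℂ)
      (j₀.comp (((σ : GQ) : QB →ₐ[ℚ] QB) : QB →+* QB)) (RingHom.injective _)
      (RingHom.injective _)
    exact ⟨e, fun x => he x⟩
  choose ι hι using hι
  have hιj : ∀ σ : Γ, ∀ x : K₀, ι σ x = j x := by
    intro σ x
    have hx : IsAlgebraic ℚ (x : ℂ) := by
      have h1 : IsAlgebraic ℚ x := (Algebra.IsIntegral.isIntegral x).isAlgebraic
      exact h1.algebraMap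
    obtain ⟨c, hc⟩ := exists_pre (i₀ : QB →+* ℂ) hx
    have hc' : i₀ c = (x : ℂ) := hc
    have hcm : c ∈ pre i₀ K₀ := by
      show i₀ c ∈ K₀
      rw [hc']
      exact x.2
    have h1 : (σ : GQ) c = c := (IntermediateField.mem_fixingSubgroup_iff _ _).1 σ.2 c hcm
    have h2 := hι σ c
    rw [h1, hc'] at h2
    rw [h2]
    have h3 := hj₀K ⟨c, hcm⟩
    have h4 : preHom i₀ K₀ ⟨c, hcm⟩ = x := Subtype.ext hc'
    rw [h4] at h3
    exact h3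
  choose r hr using fun σ => h (ι σ) (hιj σ)
  let Q : Γ → Ideal (𝓞 F) → (PadicAlgCl ℓ)[X] := fun σ 𝔭 => (P 𝔭).map (ι σ : ℂ →+* PadicAlgCl ℓ)
  have hQ : ∀ (σ : Γ) 𝔭, Away S ℓ 𝔭 → ∀ i, (Q σ 𝔭).coeff i = j₀ ((σ : GQ) (b 𝔭 i)) := by
    intro σ 𝔭 h𝔭 i
    show ((P 𝔭).map (ι σ : ℂ →+* PadicAlgCl ℓ)).coeff i = _
    rw [coeff_map, ← hb 𝔭 i h𝔭]
    exact hι σ _
  -- Baire
  let I : Type := {y : PadicAlgCl ℓ // IsAlgebraic ℚ y}
  have hI : Countable I := (Algebraic.countable ℚ (PadicAlgCl ℓ)).to_subtype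
  let Z : I → Set Γ := fun y => {σ | ∀ 𝔭, Away S ℓ 𝔭 → ∀ i, j₀ ((σ : GQ) (b 𝔭 i)) ∈ ℚ_[ℓ]⟮y.1⟯}
  have hZc : ∀ y, IsClosed (Z y) := by
    intro y
    have h1 : Z y = ⋂ 𝔭, ⋂ i, ((↑) : Γ → GQ) ⁻¹' {σ : GQ | (fun x => Away S ℓ 𝔭 → j₀ x ∈ ℚ_[ℓ]⟮y.1⟯) (σ (b 𝔭 i))} := by
      ext σ
      simp only [Set.mem_iInter, Set.mem_preimage, Set.mem_setOf_eq, Z]
      exact ⟨fun h2 𝔭 i h3 => h2 𝔭 h3 i, fun h2 𝔭 h3 i => h2 𝔭 i h3⟩
    rw [h1]
    exact isClosed_iInter fun 𝔭 => isClosed_iInter fun i =>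
      (closed_cond (b 𝔭 i) (fun x => Away S ℓ 𝔭 → j₀ x ∈ ℚ_[ℓ]⟮y.1⟯)).preimage continuous_subtype_val
  have hZu : ⋃ y, Z y = Set.univ := by
    rw [Set.eq_univ_iff_forall]
    intro σ
    obtain ⟨K, hK, hKr⟩ := exists_field_gl ℓ (r σ) (hr σ).1
    obtain ⟨y, hy, hKy⟩ := exists_alg ℓ K
    refine Set.mem_iUnion.2 ⟨⟨y, hy⟩, fun 𝔭 h𝔭 i => hKy ?_⟩
    obtain ⟨P', hP', hP𝔭, φ, hφ⟩ := exists_frob_place F h𝔭.1
    have h1 := ((hr σ).2 𝔭 h𝔭 P' hP' hP𝔭).2 φ hφ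
    rw [← hQ σ 𝔭 h𝔭 i]
    change _ = (P 𝔭).map (ι σ : ℂ →+* PadicAlgCl ℓ) at h1
    show ((P 𝔭).map (ι σ : ℂ →+* PadicAlgCl ℓ)).coeff i ∈ K
    rw [← h1]
    exact charpoly_mem ℓ K _ (hKr φ) i
  have hne : Nonempty Γ := ⟨1⟩
  obtain ⟨y, σ₀, hσ₀⟩ := nonempty_interior_of_iUnion_of_closed hZc hZu
  -- an open subgroup
  obtain ⟨V, hV, hVZ⟩ := isOpen_induced_iff.1 (isOpen_interior (s := Z y))
  have hσ₀V : (σ₀ : GQ) ∈ V := by
    have : σ₀ ∈ Subtype.val ⁻¹' V := by rw [hVZ]; exact hσ₀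
    exact this
  have h1 : (fun x => (σ₀ : GQ) * x) ⁻¹' V ∩ (Γ : Set GQ) ∈ 𝓝 (1 : GQ) := by
    refine Filter.inter_mem ?_ (hΓo.mem_nhds (one_mem Γ))
    refine (continuous_const_mul (σ₀ : GQ)).continuousAt.preimage_mem_nhds ?_
    rw [mul_one]
    exact hV.mem_nhds hσ₀V
  obtain ⟨W, hW1, hW, hW0⟩ := mem_nhds_iff.mp h1
  obtain ⟨U, hU⟩ := ProfiniteGrp.exist_openNormalSubgroup_sub_open_nhds_of_one hW hW0
  have hUΓ : ∀ τ : GQ, τ ∈ U.toSubgroup → τ ∈ Γ := fun τ hτ => (hW1 (hU hτ)).2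
  have hUZ : ∀ (τ : GQ) (hτ : τ ∈ U.toSubgroup), σ₀ * ⟨τ, hUΓ τ hτ⟩ ∈ Z y := by
    intro τ hτ
    have h2 : σ₀ * (⟨τ, hUΓ τ hτ⟩ : Γ) ∈ Subtype.val ⁻¹' V := (hW1 (hU hτ)).1
    rw [hVZ] at h2
    exact interior_subset h2
  obtain ⟨𝒬, h𝒬, hcmp⟩ := compare S hS ℓ n y.1
  -- the field generated by finitely many coefficients
  let B : Set QB := {x | ∃ 𝔭 ∈ 𝒬, ∃ i ∈ Finset.range (n + 1), b 𝔭 i = x}
  have hB : B.Finite := by
    refine (((𝒬 ×ˢ Finset.range (n + 1)).image fun x => b x.1 x.2).finite_toSet).subset ?_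
    rintro x ⟨𝔭, h𝔭, i, hi, rfl⟩
    exact Finset.mem_coe.2 (Finset.mem_image.2 ⟨(𝔭, i), Finset.mem_product.2 ⟨h𝔭, hi⟩, rfl⟩)
  let L : IntermediateField ℚ QB := IntermediateField.adjoin ℚ B
  haveI hL : FiniteDimensional ℚ L := by
    have : Finite B := hB
    exact IntermediateField.finiteDimensional_adjoin fun x _ =>
      (Algebra.IsAlgebraic.isAlgebraic x).isIntegral
  let U' : Subgroup GQ := U.toSubgroup ⊓ L.fixingSubgroup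
  have hU'o : IsOpen (U' : Set GQ) := U.isOpen'.inter (IntermediateField.fixingSubgroup_isOpen L)
  have hdeg : ∀ 𝔭, Away S ℓ 𝔭 → ∀ σ, (Q σ 𝔭).natDegree = n := by
    intro 𝔭 h𝔭 σ
    obtain ⟨P', hP', hP𝔭, φ, hφ⟩ := exists_frob_place F h𝔭.1
    have h1 := ((hr σ).2 𝔭 h𝔭 P' hP' hP𝔭).2 φ hφ
    change _ = (P 𝔭).map (ι σ : ℂ →+* PadicAlgCl ℓ) at h1
    show ((P 𝔭).map (ι σ : ℂ →+* PadicAlgCl ℓ)).natDegree = n
    rw [← h1, Matrix.charpoly_natDegree_eq_dim, Fintype.card_fin]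
  have hfix : ∀ τ ∈ U', ∀ 𝔭, Away S ℓ 𝔭 → ∀ i, τ (b 𝔭 i) = b 𝔭 i := by
    intro τ hτ 𝔭 h𝔭 i
    set τ' : Γ := ⟨τ, hUΓ τ hτ.1⟩ with hτ'
    have hco : ∀ x : QB, ((σ₀ * τ' : Γ) : GQ) x = (σ₀ : GQ) (τ x) := fun x => rfl
    have h2 := hcmp (r σ₀) (r (σ₀ * τ')) (Q σ₀) (Q (σ₀ * τ')) (hr σ₀) (hr (σ₀ * τ'))
      (fun 𝔮 h𝔮 i => by rw [hQ σ₀ 𝔮 h𝔮]; exact interior_subset hσ₀ 𝔮 h𝔮 i)
      (fun 𝔮 h𝔮 i => by rw [hQ _ 𝔮 h𝔮]; exact hUZ τ hτ.1 𝔮 h𝔮 i)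
      (fun 𝔮 h𝔮 => by
        ext i
        by_cases hi : i ≤ n
        · rw [hQ _ _ (h𝒬 𝔮 h𝔮), hQ _ _ (h𝒬 𝔮 h𝔮), hco]
          have h3 : τ (b 𝔮 i) = b 𝔮 i := (IntermediateField.mem_fixingSubgroup_iff L τ).1 hτ.2 _
            (IntermediateField.subset_adjoin ℚ B ⟨𝔮, h𝔮, i, Finset.mem_range.2 (by omega), rfl⟩)
          rw [h3]
        · rw [coeff_eq_zero_of_natDegree_lt (by rw [hdeg _ (h𝒬 𝔮 h𝔮)]; omega),
            coeff_eq_zero_of_natDegree_lt (by rw [hdeg _ (h𝒬 𝔮 h𝔮)]; omega)]) 𝔭 h𝔭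
    have h3 := congrArg (fun p : (PadicAlgCl ℓ)[X] => p.coeff i) h2
    simp only [hQ _ _ h𝔭, hco] at h3
    exact ((σ₀ : GQ).injective (hj₀ h3)).symm
  have hclosed : IsClosed (U' : Set GQ) := Subgroup.isClosed_of_isOpen _ hU'o
  have hff : (IntermediateField.fixedField U').fixingSubgroup = U' :=
    InfiniteGalois.fixingSubgroup_fixedField ⟨U', hclosed⟩
  haveI hfd : FiniteDimensional ℚ (IntermediateField.fixedField U') :=
    (InfiniteGalois.isOpen_iff_finite (IntermediateField.fixedField U')).1 (by rw [hff]; exact hU'o)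
  refine ⟨(IntermediateField.fixedField U').map i₀, ?_, ?_⟩
  · exact LinearEquiv.finiteDimensional
      (IntermediateField.equivMap (IntermediateField.fixedField U') i₀).toLinearEquiv
  · intro 𝔭 h𝔭 i
    rw [← hb 𝔭 i h𝔭]
    refine ⟨b 𝔭 i, ?_, rfl⟩
    show b 𝔭 i ∈ IntermediateField.fixedField U'
    rw [IntermediateField.mem_fixedField_iff]
    intro τ hτ
    exact hfix τ hτ 𝔭 h𝔭 i

end Pool.Agent.L5helper66.FD
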