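import Pool.Agent.L5helper66.FD.Core

/-! The number field and the representations for all its embeddings, from the representations for
all isomorphisms. -/

set_option autoImplicit false
set_option linter.all false

attribute [local instance 10] DivisionRing.toRatAlgebra

namespace Pool.Agent.L5helper66.FD

open NumberField Pool.Agent.Y800 Pool.Agent.R390.SF Polynomial IntermediateField

variable {F : SubFld ℚ} [hF : FiniteDimensional ℚ F]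

/-- the embedding of `ℚ` -/
theorem exists_all (S : Set (Ideal (𝓞 F))) (hS : S.Finite) (ℓ : ℕ) [Fact ℓ.Prime] (n : ℕ)
    (P : Ideal (𝓞 F) → ℂ[X])
    (h : ∀ ι : ℂ ≃+* PadicAlgCl ℓ, ∃ r : F.fixingSubgroup →* GL (Fin n) (PadicAlgCl ℓ),
        Attached S ℓ r (fun 𝔭 => (P 𝔭).map (ι : ℂ →+* PadicAlgCl ℓ))) :
    ∃ E : IntermediateField ℚ ℂ, FiniteDimensional ℚ E ∧ ∀ 𝔭, Away S ℓ 𝔭 → ∀ i, (P 𝔭).coeff i ∈ E := by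
  let K₀ : IntermediateField ℚ ℂ := ⊥
  haveI : FiniteDimensional ℚ K₀ := inferInstanceAs (FiniteDimensional ℚ (⊥ : IntermediateField ℚ ℂ))
  let j : K₀ →+* PadicAlgCl ℓ := (Rat.castHom (PadicAlgCl ℓ)).comp
    ((IntermediateField.botEquiv ℚ ℂ : K₀ ≃ₐ[ℚ] ℚ) : K₀ →+* ℚ)
  exact core S hS ℓ n P K₀ j fun ι _ => h ι

theorem equiv_of_all (S : Set (Ideal (𝓞 F))) (hS : S.Finite) (n : ℕ) (P : Ideal (𝓞 F) → ℂ[X])
    (T : ∀ (ℓ : ℕ) [Fact ℓ.Prime], (F.fixingSubgroup →* GL (Fin n) (PadicAlgCl ℓ)) → Prop)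
    (h : ∀ (ℓ : ℕ) [Fact ℓ.Prime] (ι : ℂ ≃+* PadicAlgCl ℓ),
          ∃ r : F.fixingSubgroup →* GL (Fin n) (PadicAlgCl ℓ),
            T ℓ r ∧ Attached S ℓ r (fun 𝔭 => (P 𝔭).map (ι : ℂ →+* PadicAlgCl ℓ))) :
    ∃ E : IntermediateField ℚ ℂ, FiniteDimensional ℚ E ∧ ∃ P' : Ideal (𝓞 F) → E[X],
          (∀ 𝔭 : Ideal (𝓞 F), 𝔭.IsMaximal → 𝔭 ∉ S → (P' 𝔭).map (algebraMap E ℂ) = P 𝔭) ∧
          ∀ (ℓ : ℕ) [Fact ℓ.Prime] (j : E →+* PadicAlgCl ℓ),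
            ∃ r : F.fixingSubgroup →* GL (Fin n) (PadicAlgCl ℓ),
              T ℓ r ∧ Attached S ℓ r (fun 𝔭 => (P' 𝔭).map j) := by
  classical
  haveI f2 : Fact (Nat.Prime 2) := ⟨Nat.prime_two⟩
  haveI f3 : Fact (Nat.Prime 3) := ⟨Nat.prime_three⟩
  obtain ⟨E₂, hE₂, h2⟩ := exists_all S hS 2 n P fun ι => (h 2 ι).imp fun r hr => hr.2
  obtain ⟨E₃, hE₃, h3⟩ := exists_all S hS 3 n P fun ι => (h 3 ι).imp fun r hr => hr.2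
  let E : IntermediateField ℚ ℂ := E₂ ⊔ E₃
  haveI hE : FiniteDimensional ℚ E := IntermediateField.finiteDimensional_sup E₂ E₃
  have hco : ∀ 𝔭 : Ideal (𝓞 F), 𝔭.IsMaximal → 𝔭 ∉ S → ∀ i, (P 𝔭).coeff i ∈ E := by
    intro 𝔭 hm hS' i
    by_cases h2m : ((2 : ℕ) : 𝓞 F) ∈ 𝔭
    · have h3m : ((3 : ℕ) : 𝓞 F) ∉ 𝔭 := fun h3m =>
        absurd (eq_of_mem hm.ne_top Nat.prime_two Nat.prime_three h2m h3m) (by norm_num)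
      exact (le_sup_right : E₃ ≤ E) (h3 𝔭 ⟨hm, hS', h3m⟩ i)
    · exact (le_sup_left : E₂ ≤ E) (h2 𝔭 ⟨hm, hS', h2m⟩ i)
  have hlift : ∀ 𝔭 : Ideal (𝓞 F), ∃ p : E[X], 𝔭.IsMaximal → 𝔭 ∉ S → p.map (algebraMap E ℂ) = P 𝔭 := by
    intro 𝔭
    by_cases h𝔭 : 𝔭.IsMaximal ∧ 𝔭 ∉ S
    · have h1 : P 𝔭 ∈ Polynomial.lifts (algebraMap E ℂ) := by
        rw [Polynomial.lifts_iff_coeff_lifts]
        intro i
        exact ⟨⟨_, hco 𝔭 h𝔭.1 h𝔭.2 i⟩, rfl⟩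
      obtain ⟨p, hp⟩ := (Polynomial.mem_lifts _).1 h1
      exact ⟨p, fun _ _ => hp⟩
    · exact ⟨0, fun h1 h2 => absurd ⟨h1, h2⟩ h𝔭⟩
  choose P' hP' using hlift
  refine ⟨E, hE, P', hP', fun ℓ hℓ j => ?_⟩
  haveI : Countable E := by
    have h := Algebra.IsAlgebraic.cardinalMk_le_max ℚ E
    have h2 : Cardinal.mk E ≤ Cardinal.aleph0 := by
      refine h.trans ?_
      rw [max_le_iff]
      exact ⟨Cardinal.mk_le_aleph0, le_rfl⟩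
    exact Cardinal.mk_le_aleph0_iff.1 h2
  obtain ⟨ι, hι⟩ := exists_iso_padic ℓ (algebraMap E ℂ) j (RingHom.injective _) (RingHom.injective _)
  obtain ⟨r, hT, hr⟩ := h ℓ ι
  refine ⟨r, hT, hr.1, fun 𝔭 h𝔭 Q hQ hQ𝔭 => ⟨(hr.2 𝔭 h𝔭 Q hQ hQ𝔭).1, fun σ hσ => ?_⟩⟩
  rw [(hr.2 𝔭 h𝔭 Q hQ hQ𝔭).2 σ hσ]
  show (P 𝔭).map (ι : ℂ →+* PadicAlgCl ℓ) = (P' 𝔭).map j
  rw [← hP' 𝔭 h𝔭.1 h𝔭.2.1, Polynomial.map_map]
  congr 1
  exact RingHom.ext hι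

end Pool.Agent.L5helper66.FD
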