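import Pool.Agent.Y115.FinIm

/-! Compact subgroups of `GL_n` over the algebraic closure of `ℚ_ℓ`: they are defined over a finite
extension of `ℚ_ℓ`, and the coefficients of the characteristic polynomials of their elements have
absolute value at most one. -/

set_option autoImplicit false
set_option linter.all false

namespace Pool.Agent.L5helper66.FD

open IntermediateField Polynomial

variable (ℓ : ℕ) [hℓ : Fact ℓ.Prime]

/-- a finite extension is contained in one which is generated by a number algebraic over `ℚ` -/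
theorem exists_alg (K : IntermediateField ℚ_[ℓ] (PadicAlgCl ℓ)) [FiniteDimensional ℚ_[ℓ] K] :
    ∃ y : PadicAlgCl ℓ, IsAlgebraic ℚ y ∧ K ≤ ℚ_[ℓ]⟮y⟯ := by
  obtain ⟨α, hα⟩ := Field.exists_primitive_element ℚ_[ℓ] K
  obtain ⟨y, hy, hαy⟩ := Pool.Agent.Y115.FI.exists_gen ℓ (α : PadicAlgCl ℓ)
  refine ⟨y, hy, ?_⟩
  have h1 : ℚ_[ℓ]⟮(α : PadicAlgCl ℓ)⟯ = K := by
    have h2 := congrArg IntermediateField.lift hα
    rw [IntermediateField.lift_adjoin_simple, IntermediateField.lift_top] at h2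
    exact h2
  rw [← h1, adjoin_simple_le_iff]
  exact hαy

theorem fd_simple (y : PadicAlgCl ℓ) : FiniteDimensional ℚ_[ℓ] ℚ_[ℓ]⟮y⟯ :=
  adjoin.finiteDimensional (Algebra.IsAlgebraic.isAlgebraic y).isIntegral

theorem closed_simple (y : PadicAlgCl ℓ) :
    IsClosed {x : PadicAlgCl ℓ | x ∈ ℚ_[ℓ]⟮y⟯} := by
  have h1 : IsClosed ((ℚ_[ℓ]⟮y⟯.toSubalgebra.toSubmodule : Submodule ℚ_[ℓ] (PadicAlgCl ℓ)) :
      Set (PadicAlgCl ℓ)) := by
    have := fd_simple ℓ y
    exact Submodule.closed_of_finiteDimensional _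
  exact h1

/-- a compact group of matrices has its entries in a finite extension -/
theorem exists_field_gl {G : Type*} [Group G] [TopologicalSpace G] [IsTopologicalGroup G]
    [CompactSpace G] [T2Space G] {n : ℕ} (r : G →* GL (Fin n) (PadicAlgCl ℓ)) (hr : Continuous r) :
    ∃ K : IntermediateField ℚ_[ℓ] (PadicAlgCl ℓ), FiniteDimensional ℚ_[ℓ] K ∧
      ∀ g i j, (r g : Matrix (Fin n) (Fin n) (PadicAlgCl ℓ)) i j ∈ K := by
  classical
  let ι : Type := {y : PadicAlgCl ℓ // IsAlgebraic ℚ y}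
  have hι : Countable ι := (Algebraic.countable ℚ (PadicAlgCl ℓ)).to_subtype
  let U : ι → Subgroup G := fun y =>
    { carrier := {g | ∀ i j, (r g : Matrix (Fin n) (Fin n) (PadicAlgCl ℓ)) i j ∈ ℚ_[ℓ]⟮y.1⟯ ∧
        (r g⁻¹ : Matrix (Fin n) (Fin n) (PadicAlgCl ℓ)) i j ∈ ℚ_[ℓ]⟮y.1⟯}
      one_mem' := by
        intro i j
        rw [inv_one, map_one, Units.val_one, Matrix.one_apply]
        split_ifs
        · exact ⟨one_mem _, one_mem _⟩
        · exact ⟨zero_mem _, zero_mem _⟩
      mul_mem' := by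
        intro a b ha hb i j
        rw [mul_inv_rev, map_mul, map_mul, Units.val_mul, Units.val_mul, Matrix.mul_apply,
          Matrix.mul_apply]
        exact ⟨sum_mem fun k _ => mul_mem (ha i k).1 (hb k j).1,
          sum_mem fun k _ => mul_mem (hb i k).2 (ha k j).2⟩
      inv_mem' := by
        intro a ha i j
        rw [inv_inv]
        exact ⟨(ha i j).2, (ha i j).1⟩ }
  have hcont : ∀ i j, Continuous fun g => (r g : Matrix (Fin n) (Fin n) (PadicAlgCl ℓ)) i j := by
    intro i j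
    exact (Units.continuous_val.comp hr).matrix_elem i j
  have hclosed : ∀ y, IsClosed (U y : Set G) := by
    intro y
    have h1 : (U y : Set G) = ⋂ i, ⋂ j, ({g | (r g : Matrix (Fin n) (Fin n) (PadicAlgCl ℓ)) i j ∈ ℚ_[ℓ]⟮y.1⟯} ∩
        {g | (r g⁻¹ : Matrix (Fin n) (Fin n) (PadicAlgCl ℓ)) i j ∈ ℚ_[ℓ]⟮y.1⟯}) := by
      ext g
      simp only [Set.mem_iInter]
      rfl
    rw [h1]
    refine isClosed_iInter fun i => isClosed_iInter fun j => IsClosed.inter ?_ ?_
    · exact (closed_simple ℓ y.1).preimage (hcont i j)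
    · exact (closed_simple ℓ y.1).preimage ((hcont i j).comp continuous_inv)
  have hcover : ⋃ y, (U y : Set G) = Set.univ := by
    rw [Set.eq_univ_iff_forall]
    intro g
    set R : Set (PadicAlgCl ℓ) := (Set.range fun x : Fin n × Fin n =>
        (r g : Matrix (Fin n) (Fin n) (PadicAlgCl ℓ)) x.1 x.2) ∪
      (Set.range fun x : Fin n × Fin n => (r g⁻¹ : Matrix (Fin n) (Fin n) (PadicAlgCl ℓ)) x.1 x.2)
      with hR
    have hRfin : R.Finite := (Set.finite_range _).union (Set.finite_range _)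
    have hRK : FiniteDimensional ℚ_[ℓ] (IntermediateField.adjoin ℚ_[ℓ] R) := by
      have : Finite R := hRfin
      exact IntermediateField.finiteDimensional_adjoin fun x _ =>
        (Algebra.IsAlgebraic.isAlgebraic x).isIntegral
    obtain ⟨y, hy, hle⟩ := exists_alg ℓ (IntermediateField.adjoin ℚ_[ℓ] R)
    refine Set.mem_iUnion.2 ⟨⟨y, hy⟩, fun i j => ⟨hle ?_, hle ?_⟩⟩
    · exact IntermediateField.subset_adjoin _ _ (Or.inl ⟨(i, j), rfl⟩)
    · exact IntermediateField.subset_adjoin _ _ (Or.inr ⟨(i, j), rfl⟩)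
  have hne : Nonempty G := ⟨1⟩
  obtain ⟨y, z, hz⟩ := nonempty_interior_of_iUnion_of_closed hclosed hcover
  have hopen : IsOpen (U y : Set G) :=
    Subgroup.isOpen_of_mem_nhds _ (mem_interior_iff_mem_nhds.1 hz)
  have hfin : Finite (G ⧸ U y) := Subgroup.quotient_finite_of_isOpen _ hopen
  set R : Set (PadicAlgCl ℓ) := Set.range fun q : (G ⧸ U y) × (Fin n × Fin n) =>
    (r q.1.out : Matrix (Fin n) (Fin n) (PadicAlgCl ℓ)) q.2.1 q.2.2 with hR
  have hRfin : R.Finite := Set.finite_range _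
  have hRK : FiniteDimensional ℚ_[ℓ] (IntermediateField.adjoin ℚ_[ℓ] R) := by
    have : Finite R := hRfin
    exact IntermediateField.finiteDimensional_adjoin fun x _ =>
      (Algebra.IsAlgebraic.isAlgebraic x).isIntegral
  have := fd_simple ℓ y.1
  refine ⟨ℚ_[ℓ]⟮y.1⟯ ⊔ IntermediateField.adjoin ℚ_[ℓ] R, inferInstance, fun g i j => ?_⟩
  obtain ⟨h, hh⟩ := QuotientGroup.mk_out_eq_mul (U y) g
  have h1 : g = ((g : G ⧸ U y).out) * (h : G)⁻¹ := by rw [hh]; group
  rw [h1, map_mul, Units.val_mul, Matrix.mul_apply]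
  refine sum_mem fun k _ => mul_mem ?_ ?_
  · exact (le_sup_right : IntermediateField.adjoin ℚ_[ℓ] R ≤ _)
      (IntermediateField.subset_adjoin _ _ ⟨((g : G ⧸ U y), (i, k)), rfl⟩)
  · exact (le_sup_left : ℚ_[ℓ]⟮y.1⟯ ≤ _) (h.2 k j).2

/-- the coefficients of the characteristic polynomial of a matrix lie in the field of its entries -/
theorem charpoly_mem {n : ℕ} (K : IntermediateField ℚ_[ℓ] (PadicAlgCl ℓ))
    (A : Matrix (Fin n) (Fin n) (PadicAlgCl ℓ)) (h : ∀ i j, A i j ∈ K) (m : ℕ) : A.charpoly.coeff m ∈ K := by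
  let B : Matrix (Fin n) (Fin n) K := fun i j => ⟨A i j, h i j⟩
  have h1 : A = B.map (algebraMap K (PadicAlgCl ℓ)) := by
    ext i j
    rfl
  rw [h1, Matrix.charpoly_map, Polynomial.coeff_map]
  exact (B.charpoly.coeff m).2

section bdd

variable {k : Type*} [NormedField k]

theorem eig_le_one {G : Type*} [Group G] [TopologicalSpace G] [CompactSpace G] {n : ℕ}
    (r : G →* GL (Fin n) k) (hr : Continuous r) (g : G) {z : k}
    (hz : (r g : Matrix (Fin n) (Fin n) k).charpoly.IsRoot z) : ‖z‖ ≤ 1 := by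
  classical
  have h1 : (Matrix.scalar (Fin n) z - (r g : Matrix (Fin n) (Fin n) k)).det = 0 := by
    rw [← Matrix.eval_charpoly]
    exact hz
  obtain ⟨v, hv0, hv⟩ := Matrix.exists_mulVec_eq_zero_iff.2 h1
  have hv1 : (r g : Matrix (Fin n) (Fin n) k).mulVec v = z • v := by
    rw [Matrix.sub_mulVec, sub_eq_zero] at hv
    rw [← hv]
    ext i
    rw [Matrix.scalar_apply, Matrix.mulVec_diagonal]
    rfl
  have hpow : ∀ m : ℕ, (r (g ^ m) : Matrix (Fin n) (Fin n) k).mulVec v = z ^ m • v := by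
    intro m
    induction m with
    | zero => rw [pow_zero, map_one, Units.val_one, Matrix.one_mulVec, pow_zero, one_smul]
    | succ m ih =>
      rw [pow_succ, map_mul, Units.val_mul, ← Matrix.mulVec_mulVec, hv1, Matrix.mulVec_smul, ih,
        smul_smul, pow_succ, mul_comm]
  obtain ⟨i, hi⟩ : ∃ i, v i ≠ 0 := by
    by_contra h
    push Not at h
    exact hv0 (funext h)
  -- the entries are bounded
  have hb : ∀ i j, ∃ C : ℝ, ∀ x : G, ‖(r x : Matrix (Fin n) (Fin n) k) i j‖ ≤ C := by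
    intro i j
    have hc : Continuous fun x => (r x : Matrix (Fin n) (Fin n) k) i j :=
      (Units.continuous_val.comp hr).matrix_elem i j
    obtain ⟨C, hC⟩ := (isCompact_range hc).isBounded.exists_norm_le
    exact ⟨C, fun x => hC _ ⟨x, rfl⟩⟩
  choose C hC using hb
  set D : ℝ := ∑ j, C i j * ‖v j‖ with hD
  have hbound : ∀ m : ℕ, ‖z‖ ^ m ≤ D / ‖v i‖ := by
    intro m
    rw [le_div_iff₀ (norm_pos_iff.2 hi)]
    have h2 := congrFun (hpow m) i
    have h3 : ‖z‖ ^ m * ‖v i‖ = ‖((r (g ^ m) : Matrix (Fin n) (Fin n) k).mulVec v) i‖ := by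
      rw [h2, Pi.smul_apply, smul_eq_mul, norm_mul, norm_pow]
    rw [h3, Matrix.mulVec, dotProduct]
    refine (norm_sum_le _ _).trans (Finset.sum_le_sum fun j _ => ?_)
    rw [norm_mul]
    exact mul_le_mul_of_nonneg_right (hC i j _) (norm_nonneg _)
  by_contra hcon
  push Not at hcon
  obtain ⟨m, hm⟩ := pow_unbounded_of_one_lt (D / ‖v i‖) hcon
  exact absurd (hbound m) (not_le.2 hm)

/-- all coefficients have absolute value at most one -/
def Bd (p : k[X]) : Prop := ∀ i, ‖p.coeff i‖ ≤ 1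

theorem Bd.mul [IsUltrametricDist k] {p q : k[X]} (hp : Bd p) (hq : Bd q) : Bd (p * q) := by
  intro i
  rw [Polynomial.coeff_mul]
  refine IsUltrametricDist.norm_sum_le_of_forall_le_of_nonneg zero_le_one fun x _ => ?_
  rw [norm_mul]
  exact mul_le_one₀ (hp _) (norm_nonneg _) (hq _)

theorem Bd.linear {z : k} (hz : ‖z‖ ≤ 1) : Bd (X - C z) := by
  intro i
  rw [coeff_sub, coeff_X, coeff_C]
  rcases eq_or_ne i 0 with h | h
  · subst h
    simp [hz]
  · rcases eq_or_ne 1 i with h1 | h1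
    · simp [h, h1.symm]
    · simp [h, h1]

theorem Bd.prod [IsUltrametricDist k] (s : Multiset k) (hs : ∀ z ∈ s, ‖z‖ ≤ 1) :
    Bd (s.map fun z => X - C z).prod := by
  induction s using Multiset.induction_on with
  | empty =>
    intro i
    rw [Multiset.map_zero, Multiset.prod_zero, coeff_one]
    split_ifs <;> simp
  | cons a s ih =>
    rw [Multiset.map_cons, Multiset.prod_cons]
    exact (Bd.linear (hs a (Multiset.mem_cons_self _ _))).mul
      (ih fun z hz => hs z (Multiset.mem_cons_of_mem hz))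

/-- the characteristic polynomials of the elements of a compact group have bounded coefficients -/
theorem charpoly_bd [IsUltrametricDist k] [IsAlgClosed k] {G : Type*} [Group G] [TopologicalSpace G]
    [CompactSpace G] {n : ℕ} (r : G →* GL (Fin n) k) (hr : Continuous r) (g : G) (i : ℕ) :
    ‖(r g : Matrix (Fin n) (Fin n) k).charpoly.coeff i‖ ≤ 1 := by
  have h1 := (IsAlgClosed.splits (r g : Matrix (Fin n) (Fin n) k).charpoly).eq_prod_roots_of_monic
    (Matrix.charpoly_monic _)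
  have h2 : Bd (r g : Matrix (Fin n) (Fin n) k).charpoly := by
    rw [h1]
    refine Bd.prod _ fun z hz => eig_le_one r hr g ?_
    exact (Polynomial.mem_roots'.1 hz).2
  exact h2 i

end bdd

end Pool.Agent.L5helper66.FD
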