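import Pool.Agent.L5helper66.FD.Eqv

/-! Linear algebraic groups over `ℚ` and their representations. -/

set_option autoImplicit false
set_option linter.all false

namespace Pool.Agent.L5helper66.FD

open NumberField Pool.Agent.Y800 Pool.Agent.R390.SF Polynomial IntermediateField

/-- rational polynomials in the entries of an `N × N` matrix and of its inverse -/
abbrev Pol (N : ℕ) : Type := MvPolynomial ((Fin N × Fin N) ⊕ (Fin N × Fin N)) ℚ

section alg

variable {N : ℕ}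

/-- the value of a polynomial at an invertible matrix -/
noncomputable def ev {k : Type} [Field k] [CharZero k] (f : Pol N) (g : GL (Fin N) k) : k :=
  MvPolynomial.eval₂ (Rat.castHom k) (Sum.elim (fun x => (g : Matrix (Fin N) (Fin N) k) x.1 x.2)
    (fun x => ((g⁻¹ : GL (Fin N) k) : Matrix (Fin N) (Fin N) k) x.1 x.2)) f

/-- the zeros of a set of polynomials in `GL_N(k)` -/
def Pts (I : Set (Pol N)) (k : Type) [Field k] [CharZero k] : Set (GL (Fin N) k) :=
  {g | ∀ f ∈ I, ev f g = 0}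

/-- the zeros form a group, over every field of characteristic zero -/
def IsGroup (I : Set (Pol N)) : Prop := ∀ (k : Type) [Field k] [CharZero k],
  (1 : GL (Fin N) k) ∈ Pts I k ∧ (∀ g ∈ Pts I k, ∀ h ∈ Pts I k, g * h ∈ Pts I k) ∧
    ∀ g ∈ Pts I k, g⁻¹ ∈ Pts I k

/-- the matrix whose entries are the values of polynomials -/
noncomputable def mat {m : ℕ} {k : Type} [Field k] [CharZero k] (ρ : Fin m → Fin m → Pol N)
    (g : GL (Fin N) k) : Matrix (Fin m) (Fin m) k := Matrix.of fun i j => ev (ρ i j) g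

/-- `ρ` is a representation of the group of the zeros of `I` -/
def IsRep {m : ℕ} (I : Set (Pol N)) (ρ : Fin m → Fin m → Pol N) : Prop :=
  ∀ (k : Type) [Field k] [CharZero k], mat ρ (1 : GL (Fin N) k) = 1 ∧
    ∀ g ∈ Pts I k, ∀ h ∈ Pts I k, mat ρ (g * h) = mat ρ g * mat ρ h

theorem ev_map {k k' : Type} [Field k] [CharZero k] [Field k'] [CharZero k'] (φ : k →+* k') (f : Pol N)
    (g : GL (Fin N) k) : ev f (Matrix.GeneralLinearGroup.map φ g) = φ (ev f g) := by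
  unfold ev
  rw [MvPolynomial.eval₂_comp_left φ (Rat.castHom k)]
  have h1 : φ.comp (Rat.castHom k) = Rat.castHom k' := Subsingleton.elim _ _
  rw [h1]
  congr 1
  funext x
  rcases x with x | x
  · rfl
  · show (((Matrix.GeneralLinearGroup.map φ g)⁻¹ : GL (Fin N) k') : Matrix (Fin N) (Fin N) k') x.1 x.2 = _
    rw [← map_inv]
    rfl

theorem pts_map {k k' : Type} [Field k] [CharZero k] [Field k'] [CharZero k'] (φ : k →+* k')
    {I : Set (Pol N)} {g : GL (Fin N) k} (hg : g ∈ Pts I k) :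
    Matrix.GeneralLinearGroup.map φ g ∈ Pts I k' := by
  intro f hf
  rw [ev_map, hg f hf, map_zero]

theorem mat_map {m : ℕ} {k k' : Type} [Field k] [CharZero k] [Field k'] [CharZero k'] (φ : k →+* k')
    (ρ : Fin m → Fin m → Pol N) (g : GL (Fin N) k) :
    mat ρ (Matrix.GeneralLinearGroup.map φ g) = (mat ρ g).map φ := by
  ext i j
  exact ev_map φ (ρ i j) g

theorem mat_conj {m : ℕ} {k : Type} [Field k] [CharZero k] {I : Set (Pol N)} (hI : IsGroup I)
    {ρ : Fin m → Fin m → Pol N} (hρ : IsRep I ρ) {g h : GL (Fin N) k} (hg : g ∈ Pts I k)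
    (hh : h ∈ Pts I k) : (mat ρ (h * g * h⁻¹)).charpoly = (mat ρ g).charpoly := by
  obtain ⟨h1, h2, h3⟩ := hI k
  obtain ⟨r1, r2⟩ := hρ k
  have e1 : mat ρ h * mat ρ h⁻¹ = 1 := by rw [← r2 h hh _ (h3 h hh), mul_inv_cancel, r1]
  have e2 : mat ρ h⁻¹ * mat ρ h = 1 := by rw [← r2 _ (h3 h hh) h hh, inv_mul_cancel, r1]
  rw [r2 _ (h2 h hh g hg) _ (h3 h hh), r2 h hh g hg]
  have h4 := Matrix.charpoly_units_conj ⟨mat ρ h, mat ρ h⁻¹, e1, e2⟩ (mat ρ g)
  rw [← Matrix.coe_units_inv] at h4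
  exact h4

/-- composition with a representation -/
noncomputable def compRep {m : ℕ} {k : Type} [Field k] [CharZero k] {I : Set (Pol N)}
    {ρ : Fin m → Fin m → Pol N} (hρ : IsRep I ρ) {G : Type*} [Group G] (r : G →* GL (Fin N) k)
    (hr : ∀ g, r g ∈ Pts I k) : G →* GL (Fin m) k where
  toFun g := ⟨mat ρ (r g), mat ρ (r g⁻¹),
    by rw [← (hρ k).2 _ (hr g) _ (hr g⁻¹), ← map_mul, mul_inv_cancel, map_one, (hρ k).1],
    by rw [← (hρ k).2 _ (hr g⁻¹) _ (hr g), ← map_mul, inv_mul_cancel, map_one, (hρ k).1]⟩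
  map_one' := by
    apply Units.ext
    show mat ρ (r 1) = 1
    rw [map_one, (hρ k).1]
  map_mul' g h := by
    apply Units.ext
    show mat ρ (r (g * h)) = mat ρ (r g) * mat ρ (r h)
    rw [map_mul, (hρ k).2 _ (hr g) _ (hr h)]

theorem continuous_ev {k : Type} [Field k] [CharZero k] [TopologicalSpace k] [IsTopologicalRing k]
    {X : Type*} [TopologicalSpace X] (r : X → GL (Fin N) k) (hr : Continuous r) (f : Pol N) :
    Continuous fun x => ev f (r x) := by
  unfold ev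
  simp only [MvPolynomial.eval₂_eq]
  refine continuous_finset_sum _ fun d _ => continuous_const.mul ?_
  refine continuous_finset_prod _ fun i _ => Continuous.pow ?_ _
  rcases i with i | i
  · exact (Units.continuous_val.comp hr).matrix_elem i.1 i.2
  · exact ((Units.continuous_iff.1 hr).2).matrix_elem i.1 i.2

theorem continuous_compRep {m : ℕ} {k : Type} [Field k] [CharZero k] [TopologicalSpace k]
    [IsTopologicalRing k] {I : Set (Pol N)} {ρ : Fin m → Fin m → Pol N} (hρ : IsRep I ρ) {G : Type*}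
    [Group G] [TopologicalSpace G] [IsTopologicalGroup G] (r : G →* GL (Fin N) k) (hr : ∀ g, r g ∈ Pts I k)
    (hc : Continuous r) : Continuous (compRep hρ r hr) := by
  rw [Units.continuous_iff]
  refine ⟨continuous_matrix fun i j => continuous_ev _ hc (ρ i j), ?_⟩
  exact continuous_matrix fun i j => continuous_ev (fun g => r g⁻¹) (hc.comp continuous_inv) (ρ i j)

end alg

variable {F : SubFld ℚ} [hF : FiniteDimensional ℚ F] {N : ℕ}

/-- `r` has values in the group of the zeros of `I`, is continuous and unramified at the places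
outside `S` which are not above `ℓ`, and maps the Frobenius elements to conjugates of the `s 𝔭` -/
def AttG (S : Set (Ideal (𝓞 F))) (ℓ : ℕ) {k : Type} [Field k] [CharZero k] [TopologicalSpace k]
    (I : Set (Pol N)) (r : F.fixingSubgroup →* GL (Fin N) k) (s : Ideal (𝓞 F) → GL (Fin N) k) : Prop :=
  Continuous r ∧ (∀ g, r g ∈ Pts I k) ∧ ∀ 𝔭 : Ideal (𝓞 F), Away S ℓ 𝔭 → ∀ P : Ideal ZBar, P.IsMaximal →
    P.under (𝓞 F) = 𝔭 → (∀ τ : F.fixingSubgroup, InInertia P τ → r τ = 1) ∧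
    ∀ σ : F.fixingSubgroup, IsGeomFrob (Nat.card (𝓞 F ⧸ 𝔭)) P σ → ∃ h ∈ Pts I k, r σ = h * s 𝔭 * h⁻¹

/-- **algebraic groups** -/
theorem gen (S : Set (Ideal (𝓞 F))) (hS : S.Finite) (ℓ : ℕ) [Fact ℓ.Prime] {I : Set (Pol N)}
    (hI : IsGroup I) (s : Ideal (𝓞 F) → GL (Fin N) ℂ) (hs : ∀ 𝔭, s 𝔭 ∈ Pts I ℂ)
    (K₀ : IntermediateField ℚ ℂ) [hK₀ : FiniteDimensional ℚ K₀] (j : K₀ →+* PadicAlgCl ℓ)
    (h : ∀ ι : ℂ ≃+* PadicAlgCl ℓ, (∀ x : K₀, ι x = j x) →
      ∃ r : F.fixingSubgroup →* GL (Fin N) (PadicAlgCl ℓ),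
        AttG S ℓ I r (fun 𝔭 => Matrix.GeneralLinearGroup.map (ι : ℂ →+* PadicAlgCl ℓ) (s 𝔭)))
    {m : ℕ} (ρ : Fin m → Fin m → Pol N) (hρ : IsRep I ρ) :
    ∃ E : IntermediateField ℚ ℂ, FiniteDimensional ℚ E ∧
      ∀ 𝔭, Away S ℓ 𝔭 → ∀ i, (mat ρ (s 𝔭)).charpoly.coeff i ∈ E := by
  refine core S hS ℓ m (fun 𝔭 => (mat ρ (s 𝔭)).charpoly) K₀ j fun ι hι => ?_
  obtain ⟨r, hc, hr, hr'⟩ := h ι hι
  refine ⟨compRep hρ r hr, continuous_compRep hρ r hr hc, fun 𝔭 h𝔭 P hP hP𝔭 => ?_⟩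
  obtain ⟨h1, h2⟩ := hr' 𝔭 h𝔭 P hP hP𝔭
  refine ⟨fun τ hτ => ?_, fun σ hσ => ?_⟩
  · apply Units.ext
    show mat ρ (r τ) = 1
    rw [h1 τ hτ, (hρ _).1]
  · obtain ⟨x, hx, hx'⟩ := h2 σ hσ
    show (mat ρ (r σ)).charpoly = _
    rw [hx', mat_conj hI hρ (pts_map _ (hs 𝔭)) hx, mat_map, Matrix.charpoly_map]

end Pool.Agent.L5helper66.FD
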