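import Pool.Agent.Y352.LL.Cp

/-! Isomorphisms between `ℂ` and the algebraic closure of `ℚ_ℓ` with prescribed values on a countable ring. -/

set_option autoImplicit false
set_option linter.all false

open Cardinal

namespace Pool.Agent.L5helper66.FD

/-- Two algebraically closed fields of the same uncountable cardinality are isomorphic over every countable subring. -/
theorem exists_iso {R K L : Type} [CommRing R] [IsDomain R] [Field K] [Field L] [Algebra R K] [Algebra R L]
    [FaithfulSMul R K] [FaithfulSMul R L] [IsAlgClosed K] [IsAlgClosed L] (hR : #R ≤ ℵ₀) (hK : ℵ₀ < #K)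
    (hKL : #K = #L) : ∃ e : K ≃+* L, ∀ x : R, e (algebraMap R K x) = algebraMap R L x := by
  obtain ⟨s, hs⟩ := exists_isTranscendenceBasis R K
  obtain ⟨t, ht⟩ := exists_isTranscendenceBasis R L
  have h1 : #K = #s := IsAlgClosed.cardinal_eq_cardinal_transcendence_basis_of_aleph0_lt' _ hs hR hK
  have h2 : #L = #t := IsAlgClosed.cardinal_eq_cardinal_transcendence_basis_of_aleph0_lt' _ ht hR (hKL ▸ hK)
  obtain ⟨e⟩ := Cardinal.eq.1 (h1.symm.trans (hKL.trans h2))
  letI := IsAlgClosed.isAlgClosure_of_transcendence_basis _ hs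
  letI := IsAlgClosed.isAlgClosure_of_transcendence_basis _ ht
  let E : Algebra.adjoin R (Set.range ((↑) : s → K)) ≃ₐ[R] Algebra.adjoin R (Set.range ((↑) : t → L)) :=
    (hs.1.aevalEquiv.symm.trans (MvPolynomial.renameEquiv R e)).trans ht.1.aevalEquiv
  refine ⟨IsAlgClosure.equivOfEquiv K L E.toRingEquiv, fun x => ?_⟩
  rw [IsScalarTower.algebraMap_apply R (Algebra.adjoin R (Set.range ((↑) : s → K))) K x,
    IsAlgClosure.equivOfEquiv_algebraMap]
  have h3 : E.toRingEquiv (algebraMap R _ x) = algebraMap R _ x := E.commutes x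
  rw [h3, ← IsScalarTower.algebraMap_apply]

section padic

variable (ℓ : ℕ) [Fact ℓ.Prime]

theorem card_algCl : #(PadicAlgCl ℓ) = 𝔠 := by
  apply le_antisymm
  · have := Pool.Agent.Y352.LL.separable_algCl ℓ
    exact Pool.Agent.Y352.LL.card_le_of_separable _
  · exact (continuum_le_cardinal_of_nontriviallyNormedField ℚ_[ℓ]).trans
      (mk_le_of_injective (algebraMap ℚ_[ℓ] (PadicAlgCl ℓ)).injective)

/-- an isomorphism with given values on a countable ring -/
theorem exists_iso_padic {R : Type} [CommRing R] [IsDomain R] [Countable R] (i : R →+* ℂ) (j : R →+* PadicAlgCl ℓ)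
    (hi : Function.Injective i) (hj : Function.Injective j) :
    ∃ e : ℂ ≃+* PadicAlgCl ℓ, ∀ x : R, e (i x) = j x := by
  letI := i.toAlgebra
  letI := j.toAlgebra
  haveI : FaithfulSMul R ℂ := (faithfulSMul_iff_algebraMap_injective R ℂ).2 hi
  haveI : FaithfulSMul R (PadicAlgCl ℓ) := (faithfulSMul_iff_algebraMap_injective R (PadicAlgCl ℓ)).2 hj
  exact exists_iso (R := R) (K := ℂ) (L := PadicAlgCl ℓ) (Cardinal.mk_le_aleph0)
    (by rw [Cardinal.mk_complex]; exact Cardinal.aleph0_lt_continuum)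
    (by rw [Cardinal.mk_complex, card_algCl])

/-- a transcendental number of large absolute value -/
theorem exists_trans : ∃ t : PadicAlgCl ℓ, Transcendental ℚ t ∧ 1 < ‖t‖ := by
  classical
  have hcount : (({x : PadicAlgCl ℓ | IsAlgebraic ℚ x}) : Set (PadicAlgCl ℓ)).Countable :=
    Algebraic.countable ℚ (PadicAlgCl ℓ)
  have huncount : ¬ (Set.univ : Set (PadicAlgCl ℓ)).Countable := by
    intro h
    have h1 : #(PadicAlgCl ℓ) ≤ ℵ₀ := Cardinal.mk_le_aleph0_iff.2 (Set.countable_univ_iff.1 h)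
    rw [card_algCl] at h1
    exact absurd h1 (not_le_of_gt Cardinal.aleph0_lt_continuum)
  obtain ⟨t, ht⟩ : ∃ t : PadicAlgCl ℓ, Transcendental ℚ t := by
    by_contra h
    apply huncount
    refine hcount.mono fun x _ => ?_
    by_contra h1
    exact h ⟨x, h1⟩
  have ht0 : t ≠ 0 := fun h => ht (h ▸ isAlgebraic_zero)
  obtain ⟨m, hm⟩ : ∃ m : ℕ, 1 < ‖t‖ * (ℓ : ℝ) ^ m := by
    have hl : 1 < (ℓ : ℝ) := by exact_mod_cast (Fact.out : ℓ.Prime).one_lt
    obtain ⟨m, hm⟩ := pow_unbounded_of_one_lt (‖t‖⁻¹) hl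
    refine ⟨m, ?_⟩
    have h0 : 0 < ‖t‖ := norm_pos_iff.2 ht0
    rw [← div_lt_iff₀' h0]
    rwa [one_div]
  have hnl : ‖((ℓ : PadicAlgCl ℓ))‖ = (ℓ : ℝ)⁻¹ := by
    have h1 : ((ℓ : PadicAlgCl ℓ)) = algebraMap ℚ_[ℓ] (PadicAlgCl ℓ) (ℓ : ℚ_[ℓ]) := by
      rw [map_natCast]
    have h2 := PadicAlgCl.norm_extends ℓ (ℓ : ℚ_[ℓ])
    rw [h1]
    exact h2.trans (Padic.norm_p)
  have hl0 : ((ℓ : PadicAlgCl ℓ)) ≠ 0 := by exact_mod_cast (Fact.out : ℓ.Prime).ne_zero
  refine ⟨t * ((ℓ : PadicAlgCl ℓ) ^ m)⁻¹, ?_, ?_⟩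
  · intro h
    apply ht
    have h1 : t = t * ((ℓ : PadicAlgCl ℓ) ^ m)⁻¹ * (ℓ : PadicAlgCl ℓ) ^ m := by
      rw [inv_mul_cancel_right₀ (pow_ne_zero _ hl0)]
    rw [h1]
    exact h.mul ((isAlgebraic_natCast (R := ℚ) (A := PadicAlgCl ℓ) ℓ).pow m)
  · rw [norm_mul, norm_inv, norm_pow, hnl, inv_pow, inv_inv]
    exact hm

/-- a transcendental number is mapped to a number of absolute value larger than `1` by some
isomorphism which extends a given embedding of a countable field of algebraic numbers -/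
theorem exists_large {K : Type} [Field K] [CharZero K] [Algebra.IsAlgebraic ℚ K] (i : K →+* ℂ)
    (j : K →+* PadicAlgCl ℓ) {a : ℂ} (ha : Transcendental ℚ a) :
    ∃ e : ℂ ≃+* PadicAlgCl ℓ, (∀ x, e (i x) = j x) ∧ 1 < ‖e a‖ := by
  classical
  obtain ⟨t, ht, ht1⟩ := exists_trans ℓ
  haveI hK : Countable K := by
    have h := Algebra.IsAlgebraic.cardinalMk_le_max ℚ K
    have h2 : Cardinal.mk K ≤ Cardinal.aleph0 := by
      refine h.trans ?_
      rw [max_le_iff]
      exact ⟨Cardinal.mk_le_aleph0, le_rfl⟩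
    exact Cardinal.mk_le_aleph0_iff.1 h2
  have key : ∀ (L : Type) [Field L] [CharZero L] (φ : K →+* L) (b : L), Transcendental ℚ b →
      Function.Injective (Polynomial.eval₂RingHom φ b) := by
    intro L _ _ φ b hb
    letI := φ.toAlgebra
    haveI : IsScalarTower ℚ K L := IsScalarTower.of_algebraMap_eq fun x => by
      have h1 : (algebraMap K L).comp (algebraMap ℚ K) = algebraMap ℚ L := Subsingleton.elim _ _
      rw [← h1]
      rfl
    have h2 : Transcendental K b := fun h => hb (h.restrictScalars ℚ)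
    exact transcendental_iff_injective.1 h2
  haveI : Countable (Polynomial K) := by
    have : #(Polynomial K) ≤ ℵ₀ := by
      have h1 := Polynomial.cardinalMk_le_max (R := K)
      refine h1.trans ?_
      rw [max_le_iff]
      exact ⟨Cardinal.mk_le_aleph0, le_rfl⟩
    exact Cardinal.mk_le_aleph0_iff.1 this
  obtain ⟨e, he⟩ := exists_iso_padic ℓ (Polynomial.eval₂RingHom i a) (Polynomial.eval₂RingHom j t)
    (key ℂ i a ha) (key (PadicAlgCl ℓ) j t ht)
  refine ⟨e, fun x => ?_, ?_⟩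
  · have h1 := he (Polynomial.C x)
    simpa using h1
  · have h1 := he Polynomial.X
    simp only [Polynomial.coe_eval₂RingHom, Polynomial.eval₂_X] at h1
    rw [h1]
    exact ht1

end padic

end Pool.Agent.L5helper66.FD
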