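import Pool.Agent.L5helper66.FD.Wk
import Pool.Agent.L5helper66.FD.Gen

/-! The field of definition for homomorphisms to L-groups. -/

set_option autoImplicit false
set_option linter.all false

attribute [local instance 10] DivisionRing.toRatAlgebra

namespace Pool.Agent.L5helper66.FD

open NumberField Pool.Agent.Y800 Pool.Agent.R390.SF Polynomial IntermediateField Module Topology

section alg

variable {N : ℕ}

/-- polynomials with coefficients in `M` in the entries of a matrix and of its inverse -/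
abbrev PolM (N : ℕ) (M : Type) [Field M] : Type := MvPolynomial ((Fin N × Fin N) ⊕ (Fin N × Fin N)) M

/-- the value of a polynomial at an invertible matrix -/
noncomputable def evM {M k : Type} [Field M] [Field k] (ψ : M →+* k) (f : PolM N M) (g : GL (Fin N) k) : k :=
  MvPolynomial.eval₂ ψ (Sum.elim (fun x => (g : Matrix (Fin N) (Fin N) k) x.1 x.2)
    (fun x => ((g⁻¹ : GL (Fin N) k) : Matrix (Fin N) (Fin N) k) x.1 x.2)) f

/-- the matrix whose entries are the values of polynomials -/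
noncomputable def matM {m : ℕ} {M k : Type} [Field M] [Field k] (ψ : M →+* k)
    (ρ : Fin m → Fin m → PolM N M) (g : GL (Fin N) k) : Matrix (Fin m) (Fin m) k :=
  Matrix.of fun i j => evM ψ (ρ i j) g

/-- the rational matrix `c` as a matrix over `k` -/
noncomputable def bc (k : Type) [Field k] [CharZero k] (c : GL (Fin N) ℚ) : GL (Fin N) k :=
  Matrix.GeneralLinearGroup.map (Rat.castHom k) c

/-- `c` normalizes the group of the zeros of `I` -/
def Norm (I : Set (Pol N)) (c : GL (Fin N) ℚ) : Prop := ∀ (k : Type) [Field k] [CharZero k],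
  ∀ g ∈ Pts I k, bc k c * g * (bc k c)⁻¹ ∈ Pts I k

/-- the points of the group generated by the zeros of `I` and by `c` -/
def PtsC (I : Set (Pol N)) (c : GL (Fin N) ℚ) (k : Type) [Field k] [CharZero k] : Set (GL (Fin N) k) :=
  {g | ∃ n : ℤ, g * (bc k (c ^ n))⁻¹ ∈ Pts I k}

/-- `ρ` is a representation, with coefficients in `M`, of the group generated by the zeros of `I` and
by `c` -/
def IsRepC {m : ℕ} (I : Set (Pol N)) (c : GL (Fin N) ℚ) (M : IntermediateField ℚ ℂ)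
    (ρ : Fin m → Fin m → PolM N M) : Prop :=
  ∀ (k : Type) [Field k] [CharZero k] (ψ : M →+* k), matM ψ ρ 1 = 1 ∧
    ∀ g ∈ PtsC I c k, ∀ h ∈ PtsC I c k, matM ψ ρ (g * h) = matM ψ ρ g * matM ψ ρ h

theorem evM_map {M k k' : Type} [Field M] [Field k] [Field k'] (ψ : M →+* k) (φ : k →+* k')
    (f : PolM N M) (g : GL (Fin N) k) :
    evM (φ.comp ψ) f (Matrix.GeneralLinearGroup.map φ g) = φ (evM ψ f g) := by
  unfold evM
  rw [MvPolynomial.eval₂_comp_left φ ψ]
  congr 1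
  funext x
  rcases x with x | x
  · rfl
  · show (((Matrix.GeneralLinearGroup.map φ g)⁻¹ : GL (Fin N) k') : Matrix (Fin N) (Fin N) k') x.1 x.2 = _
    rw [← map_inv]
    rfl

theorem matM_map {m : ℕ} {M k k' : Type} [Field M] [Field k] [Field k'] (ψ : M →+* k) (φ : k →+* k')
    (ρ : Fin m → Fin m → PolM N M) (g : GL (Fin N) k) :
    matM (φ.comp ψ) ρ (Matrix.GeneralLinearGroup.map φ g) = (matM ψ ρ g).map φ := by
  ext i j
  exact evM_map ψ φ (ρ i j) g

theorem bc_map {k k' : Type} [Field k] [CharZero k] [Field k'] [CharZero k'] (φ : k →+* k')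
    (c : GL (Fin N) ℚ) : Matrix.GeneralLinearGroup.map φ (bc k c) = bc k' c := by
  unfold bc
  have h1 : φ.comp (Rat.castHom k) = Rat.castHom k' := Subsingleton.elim _ _
  rw [← h1]
  rfl

theorem bc_one (k : Type) [Field k] [CharZero k] : bc k (1 : GL (Fin N) ℚ) = 1 := map_one _

theorem bc_mul (k : Type) [Field k] [CharZero k] (c d : GL (Fin N) ℚ) : bc k (c * d) = bc k c * bc k d :=
  map_mul _ _ _

variable {I : Set (Pol N)}

theorem sub_ptsC (hI : IsGroup I) (c : GL (Fin N) ℚ) {k : Type} [Field k] [CharZero k]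
    {g : GL (Fin N) k} (hg : g ∈ Pts I k) : g ∈ PtsC I c k := by
  refine ⟨0, ?_⟩
  rw [zpow_zero, bc_one, inv_one, mul_one]
  exact hg

/-- conjugation by elements of the group does not change the characteristic polynomial -/
theorem matM_conj {m : ℕ} (hI : IsGroup I) {c : GL (Fin N) ℚ} (hc : ∀ n : ℤ, Norm I (c ^ n))
    {M : IntermediateField ℚ ℂ} {ρ : Fin m → Fin m → PolM N M} (hρ : IsRepC I c M ρ) {k : Type} [Field k]
    [CharZero k] (ψ : M →+* k) {g h : GL (Fin N) k} (hg : g ∈ PtsC I c k) (hh : h ∈ Pts I k) :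
    (matM ψ ρ (h * g * h⁻¹)).charpoly = (matM ψ ρ g).charpoly := by
  obtain ⟨h1, h2, h3⟩ := hI k
  obtain ⟨r1, r2⟩ := hρ k ψ
  have hh' := sub_ptsC hI c hh
  have hhi := sub_ptsC hI c (h3 h hh)
  have hhg : h * g ∈ PtsC I c k := by
    obtain ⟨n, hn⟩ := hg
    exact ⟨n, by rw [mul_assoc]; exact h2 h hh _ hn⟩
  have e1 : matM ψ ρ h * matM ψ ρ h⁻¹ = 1 := by rw [← r2 h hh' _ hhi, mul_inv_cancel, r1]
  have e2 : matM ψ ρ h⁻¹ * matM ψ ρ h = 1 := by rw [← r2 _ hhi h hh', inv_mul_cancel, r1]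
  rw [r2 _ hhg _ hhi, r2 h hh' g hg]
  have h4 := Matrix.charpoly_units_conj ⟨matM ψ ρ h, matM ψ ρ h⁻¹, e1, e2⟩ (matM ψ ρ g)
  rw [← Matrix.coe_units_inv] at h4
  exact h4

/-- composition with a representation -/
noncomputable def compC {m : ℕ} {c : GL (Fin N) ℚ} {M : IntermediateField ℚ ℂ}
    {ρ : Fin m → Fin m → PolM N M} (hρ : IsRepC I c M ρ) {k : Type} [Field k] [CharZero k] (ψ : M →+* k)
    {G : Type*} [Group G] (r : G →* GL (Fin N) k) (hr : ∀ g, r g ∈ PtsC I c k) : G →* GL (Fin m) k where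
  toFun g := ⟨matM ψ ρ (r g), matM ψ ρ (r g⁻¹),
    by rw [← (hρ k ψ).2 _ (hr g) _ (hr g⁻¹), ← map_mul, mul_inv_cancel, map_one, (hρ k ψ).1],
    by rw [← (hρ k ψ).2 _ (hr g⁻¹) _ (hr g), ← map_mul, inv_mul_cancel, map_one, (hρ k ψ).1]⟩
  map_one' := by
    apply Units.ext
    show matM ψ ρ (r 1) = 1
    rw [map_one, (hρ k ψ).1]
  map_mul' g h := by
    apply Units.ext
    show matM ψ ρ (r (g * h)) = matM ψ ρ (r g) * matM ψ ρ (r h)
    rw [map_mul, (hρ k ψ).2 _ (hr g) _ (hr h)]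

theorem continuous_evM {M k : Type} [Field M] [Field k] [TopologicalSpace k] [IsTopologicalRing k]
    (ψ : M →+* k) {X : Type*} [TopologicalSpace X] (r : X → GL (Fin N) k) (hr : Continuous r)
    (f : PolM N M) : Continuous fun x => evM ψ f (r x) := by
  unfold evM
  simp only [MvPolynomial.eval₂_eq]
  refine continuous_finset_sum _ fun d _ => continuous_const.mul ?_
  refine continuous_finset_prod _ fun i _ => Continuous.pow ?_ _
  rcases i with i | i
  · exact (Units.continuous_val.comp hr).matrix_elem i.1 i.2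
  · exact ((Units.continuous_iff.1 hr).2).matrix_elem i.1 i.2

theorem continuous_compC {m : ℕ} {c : GL (Fin N) ℚ} {M : IntermediateField ℚ ℂ}
    {ρ : Fin m → Fin m → PolM N M} (hρ : IsRepC I c M ρ) {k : Type} [Field k] [CharZero k]
    [TopologicalSpace k] [IsTopologicalRing k] (ψ : M →+* k)
    {G : Type*} [Group G] [TopologicalSpace G] [IsTopologicalGroup G] (r : G →* GL (Fin N) k)
    (hr : ∀ g, r g ∈ PtsC I c k) (hc : Continuous r) : Continuous (compC hρ ψ r hr) := by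
  rw [Units.continuous_iff]
  refine ⟨continuous_matrix fun i j => continuous_evM ψ _ hc (ρ i j), ?_⟩
  exact continuous_matrix fun i j => continuous_evM ψ (fun g => r g⁻¹) (hc.comp continuous_inv) (ρ i j)

end alg

variable {F : SubFld ℚ} [hF : FiniteDimensional ℚ F] {N : ℕ}

/-- the geometric Frobenius elements at the places outside `S` which are not above `ℓ` -/
def Frobs (S : Set (Ideal (𝓞 F))) (ℓ : ℕ) : Set F.fixingSubgroup :=
  {σ | ∃ P : Ideal ZBar, P.IsMaximal ∧ Away S ℓ (P.under (𝓞 F)) ∧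
    IsGeomFrob (Nat.card (𝓞 F ⧸ P.under (𝓞 F))) P σ}

/-- `r` is a continuous homomorphism with `r σ ∈ H p(σ)` for all `σ`, `H` the group of the zeros of `I`,
which is unramified at the places outside `S` not above `ℓ` and maps each Frobenius element `σ` at these
places to an `H`-conjugate of `s σ` -/
def AttL (S : Set (Ideal (𝓞 F))) (ℓ : ℕ) {k : Type} [Field k] [CharZero k] [TopologicalSpace k]
    (I : Set (Pol N)) (p : F.fixingSubgroup →* GL (Fin N) ℚ) (r : F.fixingSubgroup →* GL (Fin N) k)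
    (s : F.fixingSubgroup → GL (Fin N) k) : Prop :=
  Continuous r ∧ (∀ σ, r σ * (bc k (p σ))⁻¹ ∈ Pts I k) ∧
    (∀ P : Ideal ZBar, P.IsMaximal → Away S ℓ (P.under (𝓞 F)) →
      ∀ τ : F.fixingSubgroup, InInertia P τ → r τ = 1) ∧
    ∀ σ ∈ Frobs S ℓ, ∃ h ∈ Pts I k, r σ = h * s σ * h⁻¹

/-- an extension of an embedding to a larger number field -/
theorem exists_ext_sup {ℓ : ℕ} [Fact ℓ.Prime] (K₀ M : IntermediateField ℚ ℂ) [FiniteDimensional ℚ K₀]
    [FiniteDimensional ℚ M] (j : K₀ →+* PadicAlgCl ℓ) : ∃ j' : ↥(K₀ ⊔ M) →+* PadicAlgCl ℓ,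
      ∀ x : K₀, j' (IntermediateField.inclusion (le_sup_left : K₀ ≤ K₀ ⊔ M) x) = j x := by
  letI a1 : Algebra K₀ ↥(K₀ ⊔ M) :=
    (IntermediateField.inclusion (le_sup_left : K₀ ≤ K₀ ⊔ M)).toRingHom.toAlgebra
  letI a2 : Algebra K₀ (PadicAlgCl ℓ) := j.toAlgebra
  haveI : IsScalarTower ℚ K₀ ↥(K₀ ⊔ M) := IsScalarTower.of_algebraMap_eq fun x =>
    ((IntermediateField.inclusion (le_sup_left : K₀ ≤ K₀ ⊔ M)).commutes x).symm
  haveI : Algebra.IsAlgebraic ℚ ↥(K₀ ⊔ M) := Algebra.IsAlgebraic.of_finite ℚ _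
  haveI : Algebra.IsAlgebraic K₀ ↥(K₀ ⊔ M) := Algebra.IsAlgebraic.tower_top (K := ℚ) K₀
  let J : ↥(K₀ ⊔ M) →ₐ[K₀] PadicAlgCl ℓ := IsAlgClosed.lift
  exact ⟨J, fun x => J.commutes x⟩

/-- **L-groups** -/
theorem lgen (S : Set (Ideal (𝓞 F))) (hS : S.Finite) (ℓ : ℕ) [Fact ℓ.Prime] {I : Set (Pol N)}
    (hI : IsGroup I) (p : F.fixingSubgroup →* GL (Fin N) ℚ) (hp : IsOpen (p.ker : Set F.fixingSubgroup))
    (hpI : ∀ σ, Norm I (p σ)) (s : F.fixingSubgroup → GL (Fin N) ℂ)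
    (hs : ∀ σ ∈ Frobs S ℓ, s σ * (bc ℂ (p σ))⁻¹ ∈ Pts I ℂ)
    (K₀ : IntermediateField ℚ ℂ) [hK₀ : FiniteDimensional ℚ K₀] (j : K₀ →+* PadicAlgCl ℓ)
    (h : ∀ ι : ℂ ≃+* PadicAlgCl ℓ, (∀ x : K₀, ι x = j x) →
      ∃ r : F.fixingSubgroup →* GL (Fin N) (PadicAlgCl ℓ),
        AttL S ℓ I p r (fun σ => Matrix.GeneralLinearGroup.map (ι : ℂ →+* PadicAlgCl ℓ) (s σ)))
    (φ : F.fixingSubgroup) (M : IntermediateField ℚ ℂ) [hM : FiniteDimensional ℚ M]
    {m : ℕ} (ρ : Fin m → Fin m → PolM N M) (hρ : IsRepC I (p φ) M ρ) :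
    ∃ E : IntermediateField ℚ ℂ, FiniteDimensional ℚ E ∧
      ∀ σ ∈ Frobs S ℓ, (∃ n : ℤ, p σ = p φ ^ n) →
        ∀ i, (matM (algebraMap M ℂ) ρ (s σ)).charpoly.coeff i ∈ E := by
  classical
  obtain ⟨S₁, hS₁p, hS₁⟩ := exists_below F S hS ℓ (Fact.out : ℓ.Prime)
  -- the subgroup of the elements which are mapped to powers of `p φ`
  let U : Subgroup F.fixingSubgroup := (Subgroup.zpowers (p φ)).comap p
  have hUo : IsOpen (U : Set F.fixingSubgroup) := by
    refine Subgroup.isOpen_mono ?_ hp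
    intro x hx
    show p x ∈ Subgroup.zpowers (p φ)
    rw [(MonoidHom.mem_ker).1 hx]
    exact one_mem _
  let U' : Subgroup GQ := U.map (F.fixingSubgroup).subtype
  have hU'o : IsOpen (U' : Set GQ) := by
    have h1 : (U' : Set GQ) = Subtype.val '' (U : Set F.fixingSubgroup) := rfl
    rw [h1]
    exact (isOpen_F F).isOpenMap_subtype_val _ hUo
  have hclosed : IsClosed (U' : Set GQ) := Subgroup.isClosed_of_isOpen _ hU'o
  let F' : SubFld ℚ := IntermediateField.fixedField U'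
  have hff : F'.fixingSubgroup = U' := InfiniteGalois.fixingSubgroup_fixedField ⟨U', hclosed⟩
  haveI hfd : FiniteDimensional ℚ F' :=
    (InfiniteGalois.isOpen_iff_finite F').1 (by rw [hff]; exact hU'o)
  have hle : F'.fixingSubgroup ≤ F.fixingSubgroup := by
    rw [hff]
    rintro _ ⟨x, _, rfl⟩
    exact x.2
  let incl : F'.fixingSubgroup →* F.fixingSubgroup := Subgroup.inclusion hle
  have hincl : Continuous incl := continuous_inclusion hle
  have hinU : ∀ σ : F'.fixingSubgroup, ∃ n : ℤ, p (incl σ) = p φ ^ n := by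
    intro σ
    have h1 : (σ : GQ) ∈ U' := by rw [← hff]; exact σ.2
    obtain ⟨x, hx, hx'⟩ := h1
    have h2 : incl σ = x := Subtype.ext hx'.symm
    rw [h2]
    obtain ⟨n, hn⟩ := Subgroup.mem_zpowers_iff.1 hx
    exact ⟨n, hn.symm⟩
  -- an extension of `j`
  obtain ⟨j', hj'⟩ := exists_ext_sup K₀ M j
  haveI : FiniteDimensional ℚ ↥(K₀ ⊔ M) := inferInstance
  have hnorm : ∀ n : ℤ, Norm I (p φ ^ n) := by
    intro n
    rw [← map_zpow]
    exact hpI _
  have hsC : ∀ σ : F'.fixingSubgroup, incl σ ∈ Frobs S ℓ → s (incl σ) ∈ PtsC I (p φ) ℂ := by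
    intro σ hσ
    obtain ⟨n, hn⟩ := hinU σ
    exact ⟨n, by rw [← hn]; exact hs _ hσ⟩
  obtain ⟨E, hE, hEX⟩ := wcore (F := F') S₁ hS₁p {σ | incl σ ∈ Frobs S ℓ} (by
      intro q hq hqS P hP hqP σ hσ
      have hm : (P.under (𝓞 F)).IsMaximal := under_max hP
      have hqm : (q : 𝓞 F) ∈ P.under (𝓞 F) := by
        rw [mem_under, map_natCast]
        exact hqP
      have h5 : Nat.card (𝓞 F ⧸ P.under (𝓞 F)) = q := resCard_one hq hP hqP (incl σ).2 hσ
      refine ⟨P, hP, ⟨hm, hS₁ q hq hqS _ hm hqm⟩, ?_⟩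
      rw [h5]
      exact hσ) ℓ m (fun σ => (matM (algebraMap M ℂ) ρ (s (incl σ))).charpoly) (K₀ ⊔ M) j' (by
    intro ι hι
    obtain ⟨r, hc, hrp, hin, hfr⟩ := h ι (by
      intro x
      rw [← hj' x]
      exact hι (IntermediateField.inclusion (le_sup_left : K₀ ≤ K₀ ⊔ M) x))
    let ψ : M →+* PadicAlgCl ℓ := (ι : ℂ →+* PadicAlgCl ℓ).comp (algebraMap M ℂ)
    have hrC : ∀ σ : F'.fixingSubgroup, (r.comp incl) σ ∈ PtsC I (p φ) (PadicAlgCl ℓ) := by
      intro σ
      obtain ⟨n, hn⟩ := hinU σ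
      exact ⟨n, by rw [← hn]; exact hrp (incl σ)⟩
    refine ⟨compC hρ ψ (r.comp incl) hrC, ⟨continuous_compC hρ ψ _ hrC (hc.comp hincl), ?_⟩, ?_⟩
    · intro q hq hqS P hP hqP τ hτ
      apply Units.ext
      show matM ψ ρ (r (incl τ)) = 1
      have hm : (P.under (𝓞 F)).IsMaximal := under_max hP
      have hqm : (q : 𝓞 F) ∈ P.under (𝓞 F) := by
        rw [mem_under, map_natCast]
        exact hqP
      rw [hin P hP ⟨hm, hS₁ q hq hqS _ hm hqm⟩ (incl τ) hτ, (hρ _ ψ).1]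
    · intro σ hσ
      obtain ⟨x, hx, hx'⟩ := hfr (incl σ) hσ
      show (matM ψ ρ (r (incl σ))).charpoly = _
      have hmem : Matrix.GeneralLinearGroup.map (ι : ℂ →+* PadicAlgCl ℓ) (s (incl σ)) ∈
          PtsC I (p φ) (PadicAlgCl ℓ) := by
        obtain ⟨n, hn⟩ := hsC σ hσ
        refine ⟨n, ?_⟩
        have h1 := pts_map (ι : ℂ →+* PadicAlgCl ℓ) hn
        rwa [map_mul, map_inv, bc_map] at h1
      rw [hx', matM_conj hI hnorm hρ ψ hmem hx, matM_map, Matrix.charpoly_map])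
  refine ⟨E, hE, fun σ hσ hn i => ?_⟩
  have h1 : (σ : GQ) ∈ F'.fixingSubgroup := by
    rw [hff]
    obtain ⟨n, hn⟩ := hn
    exact ⟨σ, Subgroup.mem_zpowers_iff.2 ⟨n, hn.symm⟩, rfl⟩
  exact hEX ⟨σ, h1⟩ hσ i

end Pool.Agent.L5helper66.FD
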