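import Pool.Agent.L5helper66.FD.Core

/-! The field of definition: a version for arbitrary sets of Frobenius elements. -/

set_option autoImplicit false
set_option linter.all false

attribute [local instance 10] DivisionRing.toRatAlgebra
attribute [local instance] Subgroup.fintypeQuotientOfFiniteIndex

namespace Pool.Agent.L5helper66.FD

open NumberField Pool.Agent.Y800 Pool.Agent.R390.SF Polynomial IntermediateField Module Topology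

/-- two Frobenius elements at the same prime differ by an element of the inertia group -/
theorem frob_inertia {p : ℕ} (hp : p.Prime) {P : Ideal ZBar} (hP : P.IsMaximal) (hpP : (p : ZBar) ∈ P)
    {σ σ' : GQ} (h : IsGeomFrob p P σ) (h' : IsGeomFrob p P σ') : InInertia P (σ' * σ⁻¹) := by
  haveI := hP.isPrime
  haveI : Fact p.Prime := ⟨hp⟩
  -- the residue field has characteristic `p`
  haveI hc : CharP (ZBar ⧸ P) p := by
    have h0 : ((p : ℕ) : ZBar ⧸ P) = 0 := by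
      rw [← map_natCast (Ideal.Quotient.mk P), Ideal.Quotient.eq_zero_iff_mem]
      exact hpP
    refine (CharP.charP_iff_prime_eq_zero hp).2 h0
  have key : ∀ x : ZBar, σ' • x - σ • x ∈ P := by
    intro x
    have h1 : (σ • x) ^ p - (σ' • x) ^ p ∈ P := by
      have h2 := P.sub_mem (h' x) (h x)
      have h3 : x - (σ' • x) ^ p - (x - (σ • x) ^ p) = (σ • x) ^ p - (σ' • x) ^ p := by ring
      rwa [h3] at h2
    have h4 : ((Ideal.Quotient.mk P) (σ' • x) - (Ideal.Quotient.mk P) (σ • x)) ^ p = 0 := by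
      rw [sub_pow_char, ← map_pow, ← map_pow, ← map_sub, Ideal.Quotient.eq_zero_iff_mem]
      have h5 := P.neg_mem h1
      rwa [neg_sub] at h5
    have h5 := pow_eq_zero_iff (hp.ne_zero) |>.1 h4
    rw [← map_sub, Ideal.Quotient.eq_zero_iff_mem] at h5
    exact h5
  intro y
  have h1 := key (σ⁻¹ • y)
  rwa [smul_inv_smul, ← mul_smul] at h1

variable {F : SubFld ℚ} [hF : FiniteDimensional ℚ F]

/-- a finite set of Frobenius elements which represents, up to conjugation and inertia, all Frobenius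
elements above a finite set of primes -/
theorem exists_reps (𝒯 : Finset ℕ) (h𝒯 : ∀ p ∈ 𝒯, p.Prime) : ∃ 𝒮 : Finset F.fixingSubgroup,
    (∀ σ ∈ 𝒮, ∃ p ∈ 𝒯, ∃ P : Ideal ZBar, P.IsMaximal ∧ (p : ZBar) ∈ P ∧ IsGeomFrob p P σ) ∧
      ∀ p ∈ 𝒯, ∀ P : Ideal ZBar, P.IsMaximal → (p : ZBar) ∈ P → ∀ σ : F.fixingSubgroup,
        IsGeomFrob p P σ → ∃ σ₁ ∈ 𝒮, ∃ h : F.fixingSubgroup, ∃ P₁ : Ideal ZBar, P₁.IsMaximal ∧
          (p : ZBar) ∈ P₁ ∧ InInertia P₁ ((h⁻¹ * σ * h * σ₁⁻¹ : F.fixingSubgroup) : GQ) := by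
  classical
  have h1 : ∀ p : ℕ, ∃ P : Ideal ZBar, p.Prime → P.IsMaximal ∧ (p : ZBar) ∈ P := by
    intro p
    by_cases hp : p.Prime
    · obtain ⟨P, _, hP, hpP, _⟩ := exists_geom hp
      exact ⟨P, fun _ => ⟨hP, hpP⟩⟩
    · exact ⟨⊥, fun h => absurd h hp⟩
  choose P₀ hP₀ using h1
  -- the chosen elements
  have h2 : ∀ x : ℕ × (GQ ⧸ F.fixingSubgroup), ∃ σ : F.fixingSubgroup,
      (∃ σ' : F.fixingSubgroup, IsGeomFrob x.1 (cj x.2.out (P₀ x.1)) σ') →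
        IsGeomFrob x.1 (cj x.2.out (P₀ x.1)) σ := by
    intro x
    by_cases h : ∃ σ' : F.fixingSubgroup, IsGeomFrob x.1 (cj x.2.out (P₀ x.1)) σ'
    · exact ⟨h.choose, fun _ => h.choose_spec⟩
    · exact ⟨1, fun h' => absurd h' h⟩
  choose τ hτ using h2
  refine ⟨((𝒯 ×ˢ (Finset.univ : Finset (GQ ⧸ F.fixingSubgroup))).filter fun x =>
    ∃ σ' : F.fixingSubgroup, IsGeomFrob x.1 (cj x.2.out (P₀ x.1)) σ').image τ, ?_, ?_⟩
  · intro σ hσ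
    obtain ⟨x, hx, rfl⟩ := Finset.mem_image.1 hσ
    obtain ⟨hx1, hx2⟩ := Finset.mem_filter.1 hx
    have hp := (Finset.mem_product.1 hx1).1
    obtain ⟨h3, h4⟩ := hP₀ x.1 (h𝒯 _ hp)
    exact ⟨x.1, hp, cj x.2.out (P₀ x.1), cj_max h3, cj_nat.2 h4, hτ x hx2⟩
  · intro p hp P hP hpP σ hσ
    obtain ⟨h3, h4⟩ := hP₀ p (h𝒯 p hp)
    obtain ⟨x, rfl⟩ := exists_cj (h𝒯 p hp) h3 h4 hP hpP
    obtain ⟨h, hh⟩ := QuotientGroup.mk_out_eq_mul F.fixingSubgroup x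
    -- `out = x * h`
    have h5 : IsGeomFrob p (cj ((x : GQ) : GQ ⧸ F.fixingSubgroup).out (P₀ p))
        ((h⁻¹ * σ * h : F.fixingSubgroup) : GQ) := by
      have h6 := cj_frob (x := (h : GQ)) hσ
      rw [cj_cj, ← hh] at h6
      exact h6
    have h7 := hτ (p, ((x : GQ) : GQ ⧸ F.fixingSubgroup)) ⟨h⁻¹ * σ * h, h5⟩
    refine ⟨τ (p, ((x : GQ) : GQ ⧸ F.fixingSubgroup)), Finset.mem_image.2
      ⟨_, Finset.mem_filter.2 ⟨Finset.mem_product.2 ⟨hp, Finset.mem_univ _⟩, ⟨_, h5⟩⟩, rfl⟩, h,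
      cj ((x : GQ) : GQ ⧸ F.fixingSubgroup).out (P₀ p), cj_max h3, cj_nat.2 h4, ?_⟩
    exact frob_inertia (h𝒯 p hp) (cj_max h3) (cj_nat.2 h4) h7 h5

/-- a continuous representation which is unramified outside `S₁` -/
def Unr (S₁ : Finset ℕ) {k : Type} [Field k] [TopologicalSpace k] {n : ℕ}
    (r : F.fixingSubgroup →* GL (Fin n) k) : Prop :=
  Continuous r ∧ ∀ p : ℕ, p.Prime → p ∉ S₁ → ∀ P : Ideal ZBar, P.IsMaximal → (p : ZBar) ∈ P →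
    ∀ τ : F.fixingSubgroup, InInertia P τ → r τ = 1

/-- **comparison** -/
theorem wcompare (S₁ : Finset ℕ) (hS₁ : ∀ p ∈ S₁, p.Prime) (X : Set F.fixingSubgroup)
    (hX : ∀ p : ℕ, p.Prime → p ∉ S₁ → ∀ P : Ideal ZBar, P.IsMaximal → (p : ZBar) ∈ P →
      ∀ σ : F.fixingSubgroup, IsGeomFrob p P σ → σ ∈ X) (ℓ : ℕ) [Fact ℓ.Prime] (n : ℕ)
    (y : PadicAlgCl ℓ) : ∃ 𝒮 : Finset F.fixingSubgroup, (∀ σ ∈ 𝒮, σ ∈ X) ∧
      ∀ (r r' : F.fixingSubgroup →* GL (Fin n) (PadicAlgCl ℓ)), Unr S₁ r → Unr S₁ r' →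
        (∀ σ ∈ X, ∀ i, (r σ : Matrix (Fin n) (Fin n) (PadicAlgCl ℓ)).charpoly.coeff i ∈ ℚ_[ℓ]⟮y⟯) →
        (∀ σ ∈ X, ∀ i, (r' σ : Matrix (Fin n) (Fin n) (PadicAlgCl ℓ)).charpoly.coeff i ∈ ℚ_[ℓ]⟮y⟯) →
        (∀ σ ∈ 𝒮, (r σ : Matrix (Fin n) (Fin n) (PadicAlgCl ℓ)).charpoly =
          (r' σ : Matrix (Fin n) (Fin n) (PadicAlgCl ℓ)).charpoly) →
        ∀ σ, (r σ : Matrix (Fin n) (Fin n) (PadicAlgCl ℓ)).charpoly =
          (r' σ : Matrix (Fin n) (Fin n) (PadicAlgCl ℓ)).charpoly := by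
  classical
  let E : Submodule ℚ_[ℓ] (PadicAlgCl ℓ) := ℚ_[ℓ]⟮y⟯.toSubalgebra.toSubmodule
  haveI hE : FiniteDimensional ℚ_[ℓ] E := fd_simple ℓ y
  set D : ℕ := (ℓ ^ (2 * finrank (PadicAlgCl ℓ) (Matrix (Fin n) (Fin n) (PadicAlgCl ℓ) ×
    Matrix (Fin n) (Fin n) (PadicAlgCl ℓ)) * finrank ℚ_[ℓ] E)) ^ (ℓ ^ (2 * finrank (PadicAlgCl ℓ)
      (Matrix (Fin n) (Fin n) (PadicAlgCl ℓ) × Matrix (Fin n) (Fin n) (PadicAlgCl ℓ)) *
        finrank ℚ_[ℓ] E)) with hD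
  obtain ⟨𝒯, h𝒯, hset⟩ := exists_prime_set' (F := F) S₁ S₁ hS₁ D
  obtain ⟨𝒮, h𝒮, h𝒮'⟩ := exists_reps (F := F) 𝒯 fun p hp => (h𝒯 p hp).1
  refine ⟨𝒮, ?_, ?_⟩
  · intro σ hσ
    obtain ⟨p, hp, P, hP, hpP, h1⟩ := h𝒮 σ hσ
    exact hX p (h𝒯 p hp).1 (h𝒯 p hp).2 P hP hpP σ h1
  intro r r' hr hr' hQ hQ' heq
  let R : F.fixingSubgroup →* (Matrix (Fin n) (Fin n) (PadicAlgCl ℓ) ×
      Matrix (Fin n) (Fin n) (PadicAlgCl ℓ)) :=
    ((Units.coeHom _).comp r).prod ((Units.coeHom _).comp r')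
  let τ₁ : (Matrix (Fin n) (Fin n) (PadicAlgCl ℓ) × Matrix (Fin n) (Fin n) (PadicAlgCl ℓ))
      →ₗ[PadicAlgCl ℓ] PadicAlgCl ℓ :=
    (Matrix.traceLinearMap (Fin n) (PadicAlgCl ℓ) (PadicAlgCl ℓ)).comp (LinearMap.fst _ _ _)
  let τ₂ : (Matrix (Fin n) (Fin n) (PadicAlgCl ℓ) × Matrix (Fin n) (Fin n) (PadicAlgCl ℓ))
      →ₗ[PadicAlgCl ℓ] PadicAlgCl ℓ :=
    (Matrix.traceLinearMap (Fin n) (PadicAlgCl ℓ) (PadicAlgCl ℓ)).comp (LinearMap.snd _ _ _)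
  have e₁ : ∀ g, τ₁ (R g) = (r g : Matrix (Fin n) (Fin n) (PadicAlgCl ℓ)).trace := fun g => rfl
  have e₂ : ∀ g, τ₂ (R g) = (r' g : Matrix (Fin n) (Fin n) (PadicAlgCl ℓ)).trace := fun g => rfl
  have hall : ∀ (q : F.fixingSubgroup →* GL (Fin n) (PadicAlgCl ℓ)), Unr S₁ q →
      (∀ σ ∈ X, ∀ i, (q σ : Matrix (Fin n) (Fin n) (PadicAlgCl ℓ)).charpoly.coeff i ∈ ℚ_[ℓ]⟮y⟯) →
      ∀ g, (q g : Matrix (Fin n) (Fin n) (PadicAlgCl ℓ)).trace ∈ ℚ_[ℓ]⟮y⟯ := by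
    intro q hq hqX g
    have hcl : IsClosed {g : F.fixingSubgroup |
        (q g : Matrix (Fin n) (Fin n) (PadicAlgCl ℓ)).trace ∈ ℚ_[ℓ]⟮y⟯} :=
      IsClosed.preimage (continuous_trace hq.1) (closed_simple ℓ y)
    refine closed_univ' (F := F) _ hcl S₁ ?_ g
    intro p hp hpS P hP hpP σ hσ
    exact trace_mem (ℓ := ℓ) ℚ_[ℓ]⟮y⟯ (q σ : Matrix (Fin n) (Fin n) (PadicAlgCl ℓ))
      (hqX σ (hX p hp hpS P hP hpP σ hσ))
  obtain ⟨H, hHn, hHo, hHi, hHk, hHZ⟩ := falt_core (ℓ := ℓ) R τ₁ τ₂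
    (fun x y => Matrix.trace_mul_comm x.1 y.1) (fun x y => Matrix.trace_mul_comm x.2 y.2)
    (by simp only [e₁]; exact continuous_trace hr.1) (by simp only [e₂]; exact continuous_trace hr'.1)
    E (fun g => by rw [e₁]; exact hall r hr hQ g)
    (fun g => by rw [e₂]; exact hall r' hr' hQ' g)
  have hcos := hset H hHo hHi (by
    intro p hp hpS P hP hpP τ hτ
    apply hHk
    have h1 := hr.2 p hp hpS P hP hpP τ hτ
    have h2 := hr'.2 p hp hpS P hP hpP τ hτ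
    show ((r τ : Matrix (Fin n) (Fin n) (PadicAlgCl ℓ)), (r' τ : Matrix (Fin n) (Fin n) (PadicAlgCl ℓ))) = 1
    rw [h1, h2]
    rfl)
  have htr := hHZ {σ | ∃ p ∈ 𝒯, ∃ P : Ideal ZBar, P.IsMaximal ∧ (p : ZBar) ∈ P ∧ IsGeomFrob p P σ}
    (fun g => by
      obtain ⟨p, hp, P, hP, hpP, σ, hσ, h1⟩ := hcos g
      exact ⟨σ, ⟨p, hp, P, hP, hpP, hσ⟩, h1⟩)
    (fun σ hσ => by
      obtain ⟨p, hp, P, hP, hpP, hσ⟩ := hσ
      rw [e₁, e₂]
      apply trace_of_charpoly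
      obtain ⟨σ₁, hσ₁, h, P₁, hP₁, hpP₁, hin⟩ := h𝒮' p hp P hP hpP σ hσ
      have hq : ∀ q : F.fixingSubgroup →* GL (Fin n) (PadicAlgCl ℓ), Unr S₁ q →
          (q σ : Matrix (Fin n) (Fin n) (PadicAlgCl ℓ)).charpoly =
            (q σ₁ : Matrix (Fin n) (Fin n) (PadicAlgCl ℓ)).charpoly := by
        intro q hq
        have h1 := hq.2 p (h𝒯 p hp).1 (h𝒯 p hp).2 P₁ hP₁ hpP₁ _ hin
        have h2 : q σ = q h * q σ₁ * (q h)⁻¹ := by
          rw [map_mul, map_mul, map_mul, map_inv, map_inv, mul_inv_eq_one] at h1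
          rw [← h1]
          group
        rw [h2, Units.val_mul, Units.val_mul, Matrix.coe_units_inv]
        exact Matrix.charpoly_units_conj (q h) _
      rw [hq r hr, hq r' hr']
      exact heq σ₁ hσ₁)
  intro σ
  exact charpoly_of_traces r r' htr σ

/-- **The number field, for a set of Frobenius elements** -/
theorem wcore (S₁ : Finset ℕ) (hS₁ : ∀ p ∈ S₁, p.Prime) (X : Set F.fixingSubgroup)
    (hX : ∀ p : ℕ, p.Prime → p ∉ S₁ → ∀ P : Ideal ZBar, P.IsMaximal → (p : ZBar) ∈ P →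
      ∀ σ : F.fixingSubgroup, IsGeomFrob p P σ → σ ∈ X) (ℓ : ℕ) [Fact ℓ.Prime] (n : ℕ)
    (Ψ : F.fixingSubgroup → ℂ[X]) (K₀ : IntermediateField ℚ ℂ) [hK₀ : FiniteDimensional ℚ K₀]
    (j : K₀ →+* PadicAlgCl ℓ)
    (h : ∀ ι : ℂ ≃+* PadicAlgCl ℓ, (∀ x : K₀, ι x = j x) →
      ∃ r : F.fixingSubgroup →* GL (Fin n) (PadicAlgCl ℓ), Unr S₁ r ∧
        ∀ σ ∈ X, (r σ : Matrix (Fin n) (Fin n) (PadicAlgCl ℓ)).charpoly =
          (Ψ σ).map (ι : ℂ →+* PadicAlgCl ℓ)) :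
    ∃ E : IntermediateField ℚ ℂ, FiniteDimensional ℚ E ∧ ∀ σ ∈ X, ∀ i, (Ψ σ).coeff i ∈ E := by
  classical
  haveI := countable_QB
  let i₀ : QB →ₐ[ℚ] ℂ := IsAlgClosed.lift
  obtain ⟨j₀, hj₀K⟩ := exists_ext i₀ K₀ j
  haveI := pre_fd i₀ K₀
  set Γ : Subgroup GQ := (pre i₀ K₀).fixingSubgroup with hΓ
  haveI : CompactSpace Γ := compact_F (pre i₀ K₀)
  have hΓo : IsOpen (Γ : Set GQ) := isOpen_F (pre i₀ K₀)
  have hj₀ : Function.Injective j₀ := j₀.injective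
  -- the coefficients are algebraic
  have halg : ∀ φ ∈ X, ∀ i, IsAlgebraic ℚ ((Ψ φ).coeff i) := by
    intro φ hφ i
    by_contra hcon
    obtain ⟨e, hej, he⟩ := exists_large ℓ (K := K₀) (algebraMap K₀ ℂ) j hcon
    obtain ⟨r, hr, hr'⟩ := h e hej
    have h2 := charpoly_bd r hr.1 φ i
    rw [hr' φ hφ, coeff_map] at h2
    exact absurd h2 (not_le.2 he)
  have hb : ∀ φ : F.fixingSubgroup, ∀ i : ℕ, ∃ b : QB, φ ∈ X → i₀ b = (Ψ φ).coeff i := by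
    intro φ i
    by_cases hφ : φ ∈ X
    · obtain ⟨b, hb⟩ := exists_pre (i₀ : QB →+* ℂ) (halg φ hφ i)
      exact ⟨b, fun _ => hb⟩
    · exact ⟨0, fun h1 => absurd h1 hφ⟩
  choose b hb using hb
  -- the isomorphisms and the representations
  have hι : ∀ σ : Γ, ∃ e : ℂ ≃+* PadicAlgCl ℓ, ∀ x : QB, e (i₀ x) = j₀ ((σ : GQ) x) := by
    intro σ
    obtain ⟨e, he⟩ := exists_iso_padic ℓ (i₀ : QB →+* ℂ)
      (j₀.comp (((σ : GQ) : QB →ₐ[ℚ] QB) : QB →+* QB)) (RingHom.injective _)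
      (RingHom.injective _)
    exact ⟨e, fun x => he x⟩
  choose ι hι using hι
  have hιj : ∀ σ : Γ, ∀ x : K₀, ι σ x = j x := by
    intro σ x
    have hx : IsAlgebraic ℚ (x : ℂ) := by
      have h1 : IsAlgebraic ℚ x := (Algebra.IsIntegral.isIntegral x).isAlgebraic
      exact h1.algebraMap
    obtain ⟨c, hc⟩ := exists_pre (i₀ : QB →+* ℂ) hx
    have hc' : i₀ c = (x : ℂ) := hc
    have hcm : c ∈ pre i₀ K₀ := by
      show i₀ c ∈ K₀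
      rw [hc']
      exact x.2
    have h1 : (σ : GQ) c = c := (IntermediateField.mem_fixingSubgroup_iff _ _).1 σ.2 c hcm
    have h2 := hι σ c
    rw [h1, hc'] at h2
    rw [h2]
    have h3 := hj₀K ⟨c, hcm⟩
    have h4 : preHom i₀ K₀ ⟨c, hcm⟩ = x := Subtype.ext hc'
    rw [h4] at h3
    exact h3
  choose r hr hrX using fun σ => h (ι σ) (hιj σ)
  have hQ : ∀ (σ : Γ), ∀ φ ∈ X, ∀ i,
      (r σ φ : Matrix (Fin n) (Fin n) (PadicAlgCl ℓ)).charpoly.coeff i = j₀ ((σ : GQ) (b φ i)) := by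
    intro σ φ hφ i
    rw [hrX σ φ hφ, coeff_map, ← hb φ i hφ]
    exact hι σ _
  -- Baire
  let I : Type := {y : PadicAlgCl ℓ // IsAlgebraic ℚ y}
  have hI : Countable I := (Algebraic.countable ℚ (PadicAlgCl ℓ)).to_subtype
  let Z : I → Set Γ := fun y => {σ | ∀ φ ∈ X, ∀ i, j₀ ((σ : GQ) (b φ i)) ∈ ℚ_[ℓ]⟮y.1⟯}
  have hZc : ∀ y, IsClosed (Z y) := by
    intro y
    have h1 : Z y = ⋂ φ, ⋂ i, ((↑) : Γ → GQ) ⁻¹' {σ : GQ | (fun x => φ ∈ X → j₀ x ∈ ℚ_[ℓ]⟮y.1⟯) (σ (b φ i))} := by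
      ext σ
      simp only [Set.mem_iInter, Set.mem_preimage, Set.mem_setOf_eq, Z]
      exact ⟨fun h2 φ i h3 => h2 φ h3 i, fun h2 φ h3 i => h2 φ i h3⟩
    rw [h1]
    exact isClosed_iInter fun φ => isClosed_iInter fun i =>
      (closed_cond (b φ i) (fun x => φ ∈ X → j₀ x ∈ ℚ_[ℓ]⟮y.1⟯)).preimage continuous_subtype_val
  have hZu : ⋃ y, Z y = Set.univ := by
    rw [Set.eq_univ_iff_forall]
    intro σ
    obtain ⟨K, hK, hKr⟩ := exists_field_gl ℓ (r σ) (hr σ).1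
    obtain ⟨y, hy, hKy⟩ := exists_alg ℓ K
    refine Set.mem_iUnion.2 ⟨⟨y, hy⟩, fun φ hφ i => hKy ?_⟩
    rw [← hQ σ φ hφ i]
    exact charpoly_mem ℓ K _ (hKr φ) i
  have hne : Nonempty Γ := ⟨1⟩
  obtain ⟨y, σ₀, hσ₀⟩ := nonempty_interior_of_iUnion_of_closed hZc hZu
  -- an open subgroup
  obtain ⟨V, hV, hVZ⟩ := isOpen_induced_iff.1 (isOpen_interior (s := Z y))
  have hσ₀V : (σ₀ : GQ) ∈ V := by
    have : σ₀ ∈ Subtype.val ⁻¹' V := by rw [hVZ]; exact hσ₀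
    exact this
  have h1 : (fun x => (σ₀ : GQ) * x) ⁻¹' V ∩ (Γ : Set GQ) ∈ 𝓝 (1 : GQ) := by
    refine Filter.inter_mem ?_ (hΓo.mem_nhds (one_mem Γ))
    refine (continuous_const_mul (σ₀ : GQ)).continuousAt.preimage_mem_nhds ?_
    rw [mul_one]
    exact hV.mem_nhds hσ₀V
  obtain ⟨W, hW1, hW, hW0⟩ := mem_nhds_iff.mp h1
  obtain ⟨U, hU⟩ := ProfiniteGrp.exist_openNormalSubgroup_sub_open_nhds_of_one hW hW0
  have hUΓ : ∀ τ : GQ, τ ∈ U.toSubgroup → τ ∈ Γ := fun τ hτ => (hW1 (hU hτ)).2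
  have hUZ : ∀ (τ : GQ) (hτ : τ ∈ U.toSubgroup), σ₀ * ⟨τ, hUΓ τ hτ⟩ ∈ Z y := by
    intro τ hτ
    have h2 : σ₀ * (⟨τ, hUΓ τ hτ⟩ : Γ) ∈ Subtype.val ⁻¹' V := (hW1 (hU hτ)).1
    rw [hVZ] at h2
    exact interior_subset h2
  obtain ⟨𝒮, h𝒮, hcmp⟩ := wcompare S₁ hS₁ X hX ℓ n y.1
  -- the field generated by finitely many coefficients
  let B : Set QB := {x | ∃ φ ∈ 𝒮, ∃ i ∈ Finset.range (n + 1), b φ i = x}
  have hB : B.Finite := by
    refine (((𝒮 ×ˢ Finset.range (n + 1)).image fun x => b x.1 x.2).finite_toSet).subset ?_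
    rintro x ⟨φ, hφ, i, hi, rfl⟩
    exact Finset.mem_coe.2 (Finset.mem_image.2 ⟨(φ, i), Finset.mem_product.2 ⟨hφ, hi⟩, rfl⟩)
  let L : IntermediateField ℚ QB := IntermediateField.adjoin ℚ B
  haveI hL : FiniteDimensional ℚ L := by
    have : Finite B := hB
    exact IntermediateField.finiteDimensional_adjoin fun x _ =>
      (Algebra.IsAlgebraic.isAlgebraic x).isIntegral
  let U' : Subgroup GQ := U.toSubgroup ⊓ L.fixingSubgroup
  have hU'o : IsOpen (U' : Set GQ) := U.isOpen'.inter (IntermediateField.fixingSubgroup_isOpen L)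
  have hdeg : ∀ (q : F.fixingSubgroup →* GL (Fin n) (PadicAlgCl ℓ)) φ,
      (q φ : Matrix (Fin n) (Fin n) (PadicAlgCl ℓ)).charpoly.natDegree = n := by
    intro q φ
    rw [Matrix.charpoly_natDegree_eq_dim, Fintype.card_fin]
  have hfix : ∀ τ ∈ U', ∀ φ ∈ X, ∀ i, τ (b φ i) = b φ i := by
    intro τ hτ φ hφ i
    set τ' : Γ := ⟨τ, hUΓ τ hτ.1⟩ with hτ'
    have hco : ∀ x : QB, ((σ₀ * τ' : Γ) : GQ) x = (σ₀ : GQ) (τ x) := fun x => rfl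
    have h2 := hcmp (r σ₀) (r (σ₀ * τ')) (hr σ₀) (hr (σ₀ * τ'))
      (fun ψ hψ i => by rw [hQ σ₀ ψ hψ]; exact interior_subset hσ₀ ψ hψ i)
      (fun ψ hψ i => by rw [hQ _ ψ hψ]; exact hUZ τ hτ.1 ψ hψ i)
      (fun ψ hψ => by
        ext i
        by_cases hi : i ≤ n
        · rw [hQ _ _ (h𝒮 ψ hψ), hQ _ _ (h𝒮 ψ hψ), hco]
          have h3 : τ (b ψ i) = b ψ i := (IntermediateField.mem_fixingSubgroup_iff L τ).1 hτ.2 _
            (IntermediateField.subset_adjoin ℚ B ⟨ψ, hψ, i, Finset.mem_range.2 (by omega), rfl⟩)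
          rw [h3]
        · rw [coeff_eq_zero_of_natDegree_lt (by rw [hdeg]; omega),
            coeff_eq_zero_of_natDegree_lt (by rw [hdeg]; omega)]) φ
    have h3 := congrArg (fun p : (PadicAlgCl ℓ)[X] => p.coeff i) h2
    simp only [hQ _ _ hφ, hco] at h3
    exact ((σ₀ : GQ).injective (hj₀ h3)).symm
  have hclosed : IsClosed (U' : Set GQ) := Subgroup.isClosed_of_isOpen _ hU'o
  have hff : (IntermediateField.fixedField U').fixingSubgroup = U' :=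
    InfiniteGalois.fixingSubgroup_fixedField ⟨U', hclosed⟩
  haveI hfd : FiniteDimensional ℚ (IntermediateField.fixedField U') :=
    (InfiniteGalois.isOpen_iff_finite (IntermediateField.fixedField U')).1 (by rw [hff]; exact hU'o)
  refine ⟨(IntermediateField.fixedField U').map i₀, ?_, ?_⟩
  · exact LinearEquiv.finiteDimensional
      (IntermediateField.equivMap (IntermediateField.fixedField U') i₀).toLinearEquiv
  · intro φ hφ i
    rw [← hb φ i hφ]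
    refine ⟨b φ i, ?_, rfl⟩
    show b φ i ∈ IntermediateField.fixedField U'
    rw [IntermediateField.mem_fixedField_iff]
    intro τ hτ
    exact hfix τ hτ φ hφ i

end Pool.Agent.L5helper66.FD
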